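import Pool.Agent.P8H4.PK.Red2

/-!
# Points fixed by a decomposition group
-/

set_option autoImplicit false

open WeierstrassCurve NumberField IsDedekindDomain

namespace Pool.Agent.P8H4.PK

open Pool.Agent.TH841.NF (pid mem_pid pls lf mem_lf norm_int norm_le_one_of_val)
open Pool.Agent.P8H4.PL.Fr (Gq norm_eqv)
open Pool.Agent.P8H4.PL (fixed_mem approx_int cls_iff mem_Dj)

/-- the isometric automorphisms of `C` which fix the image of `F` -/
def DD {C : Type} [NormedField C] {F : Type} [Field F] (j : F →+* C) : Subgroup (RingAut C) where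
  carrier := {τ | (∀ x, ‖τ x‖ = ‖x‖) ∧ ∀ x, τ (j x) = j x}
  one_mem' := ⟨fun _ => rfl, fun _ => rfl⟩
  mul_mem' := fun {σ τ} hσ hτ => ⟨fun x => by
    show ‖σ (τ x)‖ = ‖x‖
    rw [hσ.1, hτ.1], fun x => by
    show σ (τ (j x)) = j x
    rw [hτ.2, hσ.2]⟩
  inv_mem' := fun {τ} hτ => ⟨fun x => by
    show ‖τ.symm x‖ = ‖x‖
    rw [← hτ.1, RingEquiv.apply_symm_apply], fun x => by
    have h := hτ.2 x
    show τ.symm (j x) = j x
    rw [RingEquiv.symm_apply_eq]
    exact h.symm⟩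

lemma mem_DD {C : Type} [NormedField C] {F : Type} [Field F] {j : F →+* C} {τ : RingAut C} :
    τ ∈ DD j ↔ (∀ x, ‖τ x‖ = ‖x‖) ∧ ∀ x, τ (j x) = j x := Iff.rfl

lemma iso_DD {C : Type} [NormedField C] {F : Type} [Field F] (j : F →+* C) :
    ∀ τ ∈ DD j, ∀ x, ‖τ x‖ = ‖x‖ := fun _ hτ => hτ.1

variable {q : ℕ} [Fact q.Prime]
variable {F : Type} [Field F] [NumberField F] (j : F →+* PadicAlgCl q)

/-- an element fixed by the decomposition group -/
lemma fixed_lf {x : PadicAlgCl q} (hx : ∀ τ ∈ DD j, τ x = x) : x ∈ lf j := by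
  apply fixed_mem j
  intro τ hτ
  exact hx (toR τ) ⟨fun z => norm_eqv τ z, hτ⟩

variable {V : WeierstrassCurve (PadicAlgCl q)} (G : Subgroup (RingAut (PadicAlgCl q)))
  (hG : ∀ τ ∈ G, V.map ((τ : PadicAlgCl q ≃+* PadicAlgCl q) : PadicAlgCl q →+* PadicAlgCl q) = V)

lemma fixed_coord (hjG : DD j ≤ G) {x y : PadicAlgCl q} {h : V.toAffine.Nonsingular x y}
    (hP : ∀ τ : G, (τ : RingAut (PadicAlgCl q)) ∈ DD j → T G hG τ (pt h) = pt h) :
    x ∈ lf j ∧ y ∈ lf j := by
  refine ⟨fixed_lf j fun τ hτ => ?_, fixed_lf j fun τ hτ => ?_⟩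
  · exact (pt_inj (hP ⟨τ, hjG hτ⟩ hτ)).1
  · exact (pt_inj (hP ⟨τ, hjG hτ⟩ hτ)).2

variable {p : ℕ}

/-- finitely many fixed points of `p`-power order -/
theorem fin_tor (hjG : DD j ≤ G) (R : Rd V) (hV : Gd V) (hp : p.Prime)
    (hpn : ‖(p : PadicAlgCl q)‖ = 1) :
    {P : Pt V | (∀ τ : G, (τ : RingAut (PadicAlgCl q)) ∈ DD j → T G hG τ P = P) ∧
      ∃ n : ℕ, p ^ n • P = 0}.Finite := by
  classical
  have hfinq : Finite (𝓞 F ⧸ (pls j).asIdeal) := Ideal.finiteQuotientOfFreeOfNeBot _ (pls j).ne_bot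
  have key : ∀ P : Pt V, ∃ c : Option ((𝓞 F ⧸ (pls j).asIdeal) × (𝓞 F ⧸ (pls j).asIdeal)),
      ((∀ τ : G, (τ : RingAut (PadicAlgCl q)) ∈ DD j → T G hG τ P = P) ∧ ∃ n : ℕ, p ^ n • P = 0) →
      (c = none ∧ P = 0) ∨ ∃ (a b : 𝓞 F) (x y : PadicAlgCl q)
        (h : V.toAffine.Nonsingular x y), P = pt h ∧ ‖x‖ ≤ 1 ∧
        c = some (Ideal.Quotient.mk _ a, Ideal.Quotient.mk _ b) ∧
        ‖x - j (algebraMap (𝓞 F) F a)‖ < 1 ∧ ‖y - j (algebraMap (𝓞 F) F b)‖ < 1 := by
    intro P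
    by_cases hP : (∀ τ : G, (τ : RingAut (PadicAlgCl q)) ∈ DD j → T G hG τ P = P) ∧
      ∃ n : ℕ, p ^ n • P = 0
    · rcases pt_cases P with rfl | ⟨x, y, h, rfl⟩
      · exact ⟨none, fun _ => Or.inl ⟨rfl, rfl⟩⟩
      · obtain ⟨h1, n, hn⟩ := hP
        have hx : ‖x‖ ≤ 1 := by
          by_contra hx
          rw [not_le] at hx
          exact pt_ne h (R.hinj hV hp hpn n _ hn (R.red_far x y h hx))
        have hy : ‖y‖ ≤ 1 := (R.red_near x y h hx).1
        obtain ⟨hxm, hym⟩ := fixed_coord j G hG hjG h1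
        obtain ⟨a, ha⟩ := approx_int j hxm hx
        obtain ⟨b, hb⟩ := approx_int j hym hy
        exact ⟨some (Ideal.Quotient.mk _ a, Ideal.Quotient.mk _ b), fun _ =>
          Or.inr ⟨a, b, x, y, h, rfl, hx, rfl, ha, hb⟩⟩
    · exact ⟨none, fun h => absurd h hP⟩
  choose c hc using key
  refine Set.Finite.of_finite_image (f := c) (Set.toFinite _) ?_
  intro P hP P' hP' hcc
  obtain ⟨hPf, n, hn⟩ := hP
  obtain ⟨hPf', n', hn'⟩ := hP'
  rcases hc P ⟨hPf, n, hn⟩ with ⟨h1, h2⟩ | ⟨a, b, x, y, h, e, hx, h1, h2, h3⟩ <;>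
    rcases hc P' ⟨hPf', n', hn'⟩ with ⟨k1, k2⟩ | ⟨a', b', x', y', h', e', hx', k1, k2, k3⟩
  · rw [h2, k2]
  · rw [h1, k1] at hcc
    exact absurd hcc (by simp)
  · rw [h1, k1] at hcc
    exact absurd hcc (by simp)
  · rw [h1, k1, Option.some.injEq, Prod.mk.injEq, cls_iff, cls_iff] at hcc
    have tri : ∀ u v s t : PadicAlgCl q, ‖u - s‖ < 1 → ‖v - t‖ < 1 → ‖s - t‖ < 1 → ‖u - v‖ < 1 := by
      intro u v s t h4 h5 h6
      have e : u - v = (u - s) + ((s - t) + -(v - t)) := by ring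
      rw [e]
      refine (IsUltrametricDist.norm_add_le_max _ _).trans_lt (max_lt h4 ?_)
      refine (IsUltrametricDist.norm_add_le_max _ _).trans_lt (max_lt h6 ?_)
      rwa [norm_neg]
    have e3 : R.red P = R.red P' := by
      rw [e, e']
      exact R.red_congr h h' hx hx' (tri _ _ _ _ h2 k2 hcc.1) (tri _ _ _ _ h3 k3 hcc.2)
    rw [← sub_eq_zero]
    apply R.hinj hV hp hpn (n + n')
    · rw [smul_sub]
      have e4 : p ^ (n + n') • P = 0 := by rw [pow_add, mul_comm, mul_smul, hn, smul_zero]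
      have e5 : p ^ (n + n') • P' = 0 := by rw [pow_add, mul_smul, hn', smul_zero]
      rw [e4, e5, sub_zero]
    · rw [map_sub, e3, sub_self]

/-- the number of the affine points of a Weierstrass equation over a ring -/
noncomputable def pts {R : Type} [CommRing R] (U : WeierstrassCurve R) : ℕ :=
  Nat.card {P : R × R // U.toAffine.Equation P.1 P.2}

lemma card_Pt {k : Type} [Field k] [Finite k] {U : WeierstrassCurve k} (hΔ : U.Δ ≠ 0) :
    Nat.card (Pt U) = pts U + 1 := by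
  classical
  let e : Pt U ≃ Option {P : k × k // U.toAffine.Equation P.1 P.2} :=
    { toFun := fun P => match P with
        | Affine.Point.zero => none
        | Affine.Point.some x y h => some ⟨(x, y), h.1⟩
      invFun := fun c => match c with
        | none => (0 : Pt U)
        | some ⟨P, hP⟩ => pt ((U.toAffine.equation_iff_nonsingular_of_Δ_ne_zero hΔ).1 hP)
      left_inv := by
        intro P
        rcases P with _ | ⟨x, y, h⟩
        · rfl
        · rfl
      right_inv := by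
        intro c
        rcases c with _ | ⟨P, hP⟩
        · rfl
        · rfl }
  rw [Nat.card_congr e, Finite.card_option]
  rfl

variable (W : WeierstrassCurve (𝓞 F))

/-- the reduced equation -/
noncomputable def redAt (v : HeightOneSpectrum (𝓞 F)) : WeierstrassCurve (𝓞 F ⧸ v.asIdeal) :=
  W.map (Ideal.Quotient.mk v.asIdeal)

variable {W}

/-- no fixed points of order `p` if `p` does not divide the number of points over the residue
field -/
theorem tor_res (hjG : DD j ≤ G) (hW : W.map (j.comp (algebraMap (𝓞 F) F)) = V) (R : Rd V)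
    (hV : Gd V) (hp : p.Prime) (hpn : ‖(p : PadicAlgCl q)‖ = 1)
    (hcard : ¬ p ∣ pts (redAt W (pls j)) + 1)
    (P : Pt V) (hP : p • P = 0)
    (hfix : ∀ τ : G, (τ : RingAut (PadicAlgCl q)) ∈ DD j → T G hG τ P = P) : P = 0 := by
  classical
  rcases pt_cases P with rfl | ⟨x, y, h, rfl⟩
  · rfl
  exfalso
  have hmax : (pls j).asIdeal.IsMaximal := (pls j).isMaximal
  let _ : Field (𝓞 F ⧸ (pls j).asIdeal) := Ideal.Quotient.field _
  have hfinq : Finite (𝓞 F ⧸ (pls j).asIdeal) := Ideal.finiteQuotientOfFreeOfNeBot _ (pls j).ne_bot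
  have hx : ‖x‖ ≤ 1 := tor_int hV hp hpn h hP
  obtain ⟨hy, h', e'⟩ := R.red_near x y h hx
  obtain ⟨hxm, hym⟩ := fixed_coord j G hG hjG hfix
  obtain ⟨a, ha⟩ := approx_int j hxm hx
  obtain ⟨b, hb⟩ := approx_int j hym hy
  -- the homomorphism of the residue fields
  let g0 : 𝓞 F →+* R.v.A := (j.comp (algebraMap (𝓞 F) F)).codRestrict R.v.A
    (fun z => (R.memA _).2 (norm_int j z))
  let g : 𝓞 F →+* R.k := R.v.ρ.comp g0
  have hg : ∀ z : 𝓞 F, g z = R.v.r (j (algebraMap (𝓞 F) F z)) := by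
    intro z
    rw [R.v.r_of ((R.memA _).2 (norm_int j z))]
    rfl
  have hW0 : W.map g0 = R.V0 := by
    apply WeierstrassCurve.map_injective (f := R.v.A.subtype) Subtype.val_injective
    show (W.map g0).map R.v.A.subtype = R.V0.map R.v.A.subtype
    rw [WeierstrassCurve.map_map, R.hV0]
    exact hW
  let ε : (𝓞 F ⧸ (pls j).asIdeal) →+* R.k := Ideal.Quotient.lift _ g (by
    intro z hz
    rw [hg]
    exact (R.r0 _ (norm_int j z)).2 ((mem_pid j z).1 hz))
  have hε : ∀ z : 𝓞 F, ε (Ideal.Quotient.mk _ z) = R.v.r (j (algebraMap (𝓞 F) F z)) := by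
    intro z
    rw [← hg]
    rfl
  have hWk : (redAt W (pls j)).map ε = R.Vk := by
    rw [redAt, WeierstrassCurve.map_map, ← R.hVk, ← hW0, WeierstrassCurve.map_map]
    rfl
  have ex : R.v.r x = ε (Ideal.Quotient.mk _ a) := by
    rw [hε]
    exact R.r_congr hx (norm_int j a) ha
  have ey : R.v.r y = ε (Ideal.Quotient.mk _ b) := by
    rw [hε]
    exact R.r_congr hy (norm_int j b) hb
  have hns : (redAt W (pls j)).toAffine.Nonsingular (Ideal.Quotient.mk _ a)
      (Ideal.Quotient.mk _ b) := by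
    have h3 : ((redAt W (pls j)).map ε).toAffine.Nonsingular (ε (Ideal.Quotient.mk _ a))
        (ε (Ideal.Quotient.mk _ b)) := by rw [← ex, ← ey, hWk]; exact h'
    exact ((redAt W (pls j)).toAffine.map_nonsingular ε.injective _ _).1 h3
  have hmp : mp ε hWk (pt hns) = R.red (pt h) := by
    rw [e', mp_pt]
    exact pt_congr _ _ ex.symm ey.symm
  have hp0 : p • pt hns = 0 := by
    apply mp_inj ε hWk
    rw [map_nsmul, hmp, ← map_nsmul, hP, map_zero, map_zero]
  have hord : addOrderOf (pt hns) = p := by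
    have : Fact p.Prime := ⟨hp⟩
    exact addOrderOf_eq_prime hp0 (pt_ne hns)
  have hΔk : (redAt W (pls j)).Δ ≠ 0 := by
    intro h0
    have h1 : V.Δ = j (algebraMap (𝓞 F) F W.Δ) := by
      rw [← hW]
      exact WeierstrassCurve.map_Δ (W := W) _
    have h2 : (redAt W (pls j)).Δ = Ideal.Quotient.mk _ W.Δ :=
      WeierstrassCurve.map_Δ (W := W) _
    rw [h2, Ideal.Quotient.eq_zero_iff_mem] at h0
    have h3 : ‖j (algebraMap (𝓞 F) F W.Δ)‖ < 1 := (mem_pid j _).1 h0
    rw [← h1, hV.hΔ] at h3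
    exact lt_irrefl _ h3
  apply hcard
  have h1 := card_Pt hΔk
  have h2 : p ∣ Nat.card (Pt (redAt W (pls j))) := by
    rw [← hord]
    exact addOrderOf_dvd_natCard _
  rw [h1] at h2
  exact h2

end Pool.Agent.P8H4.PK
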