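import Pool.Agent.P8H4.PK.Sha2
import Pool.Agent.P8H4.PL.Down

/-!
# The `p`-part over Galois `p`-extensions
-/

set_option autoImplicit false

open NumberField IsDedekindDomain WeierstrassCurve

namespace Pool.Agent.P8H4.PK

open Pool.Agent.P8H4.PL (Gf gal_of_fix Ram Gf_le val_le_one_of_norm)
open Pool.Agent.TH841.NF (pid mem_pid pls lf mem_lf norm_int norm_le_one_of_val)
open Pool.Agent.TH841.NF.D (Sha)

/-- the `p`-part of the Tate-Shafarevich group and of the group of points are trivial -/
structure P1 (p : ℕ) {F : Type} [Field F] [NumberField F] (E : WeierstrassCurve F) : Prop where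
  sha : ∀ s : Sha E, p • s = 0 → s = 0
  fin : Finite (Pt E)
  card : ¬ p ∣ Nat.card (Pt E)

section

variable {k K : Type} [Field k] [NumberField k] [Field K] [NumberField K] [Algebra k K]

variable (k) in
/-- the decomposition group of `w` over `k` is trivial: the place below `w` splits completely (for
Galois extensions) -/
def Spl (w : HeightOneSpectrum (𝓞 K)) : Prop :=
  ∀ σ : Gal(K/k), (∀ x : K, w.valuation K (σ x) = w.valuation K x) → σ = 1

lemma val_eq_of_norm {q : ℕ} [Fact q.Prime] (j : K →+* PadicAlgCl q) {x y : K}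
    (h : ‖j x‖ = ‖j y‖) : (pls j).valuation K x = (pls j).valuation K y := by
  have key : ∀ x y : K, ‖j x‖ ≤ ‖j y‖ → (pls j).valuation K x ≤ (pls j).valuation K y := by
    intro x y h
    by_cases hy : y = 0
    · rw [hy, map_zero, norm_zero, norm_le_zero_iff, map_eq_zero] at h
      rw [h, hy]
    · have h1 : ‖j (x / y)‖ ≤ 1 := by
        rw [map_div₀, norm_div]
        exact div_le_one_of_le₀ h (norm_nonneg _)
      have h2 := val_le_one_of_norm j h1
      rw [map_div₀] at h2
      have h3 : (pls j).valuation K y ≠ 0 := (Valuation.ne_zero_iff _).2 hy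
      calc (pls j).valuation K x = (pls j).valuation K x / (pls j).valuation K y *
          (pls j).valuation K y := by rw [div_mul_cancel₀ _ h3]
        _ ≤ 1 * (pls j).valuation K y := by gcongr
        _ = _ := one_mul _
  exact le_antisymm (key x y h.le) (key y x h.ge)

lemma dd_of_spl [IsGalois k K] {q : ℕ} [Fact q.Prime] (j : K →+* PadicAlgCl q)
    (h : Spl k (pls j)) : ∀ σ ∈ DD (j.comp (algebraMap k K)), σ ∈ DD j := by
  intro τ hτ
  refine ⟨hτ.1, ?_⟩
  obtain ⟨σ, hσ⟩ := gal_of_fix (k := k) (K := K) (τ : PadicAlgCl q ≃+* PadicAlgCl q) j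
    (fun x => hτ.2 x)
  have h1 : σ = 1 := by
    apply h
    intro x
    apply val_eq_of_norm j
    have h2 : τ (j x) = j (σ x) := hσ x
    rw [← h2, hτ.1]
  intro x
  have h2 : τ (j x) = j (σ x) := hσ x
  rw [h2, h1]
  rfl

/-- the local conditions at the finite places -/
def FinCond (p : ℕ) (W : WeierstrassCurve (𝓞 k)) (K : Type) [Field K] [NumberField K]
    [Algebra k K] : Prop :=
  ∀ (w : HeightOneSpectrum (𝓞 K)) (v : HeightOneSpectrum (𝓞 k)),
    v.asIdeal = w.asIdeal.under (𝓞 k) → Spl k w ∨
      (6 * p * W.Δ ∉ v.asIdeal ∧ (Ram k w → ¬ p ∣ pts (redAt W v) + 1))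

/-- the local conditions at the infinite places -/
def InfCond (W : WeierstrassCurve (𝓞 k)) (K : Type) [Field K] [NumberField K]
    [Algebra k K] : Prop :=
  ∀ j : K →+* ℂ, ComplexEmbedding.IsReal (j.comp (algebraMap k K)) → ComplexEmbedding.IsReal j ∨
    (j (algebraMap k K (algebraMap (𝓞 k) k W.Δ))).re < 0

theorem p1_up [IsGalois k K] {p n : ℕ} (hp : p.Prime) (hn : Module.finrank k K = p ^ n)
    {W : WeierstrassCurve (𝓞 k)} (hΔ0 : W.Δ ≠ 0) (hfin : FinCond p W K)
    (hinf : p ≠ 2 ∨ InfCond W K) (h : P1 p (W.map (algebraMap (𝓞 k) k))) :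
    P1 p ((W.map (algebraMap (𝓞 k) k)).map (algebraMap k K)) := by
  have hch : CharZero (AlgebraicClosure K) := charZero_of_injective_algebraMap
    (algebraMap K (AlgebraicClosure K)).injective
  have halg : Algebra.IsAlgebraic ℚ (AlgebraicClosure K) := Algebra.IsAlgebraic.trans ℚ K _
  set E := W.map (algebraMap (𝓞 k) k) with hE
  set EK := E.map (algebraMap k K) with hEK
  set i : K →+* AlgebraicClosure K := algebraMap K (AlgebraicClosure K) with hi
  set i0 : k →+* AlgebraicClosure K := i.comp (algebraMap k K) with hi0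
  have hV : E.map i0 = EK.baseChange (AlgebraicClosure K) := by
    rw [hi0, ← WeierstrassCurve.map_map]
    rfl
  have hEΔ : E.Δ ≠ 0 := by
    rw [hE, WeierstrassCurve.map_Δ]
    exact fun h => hΔ0 ((FaithfulSMul.algebraMap_injective (𝓞 k) k) (by rw [h, map_zero]))
  have hEKΔ : EK.Δ ≠ 0 := by
    rw [hEK, WeierstrassCurve.map_Δ]
    exact (map_ne_zero _).2 hEΔ
  have hG : ∀ σ ∈ Gf i0, (EK.baseChange (AlgebraicClosure K)).map
      ((σ : AlgebraicClosure K ≃+* AlgebraicClosure K) : AlgebraicClosure K →+* AlgebraicClosure K) =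
      EK.baseChange (AlgebraicClosure K) := by
    intro σ hσ
    rw [← hV, WeierstrassCurve.map_map]
    congr 1
    ext x
    exact hσ x
  have h1 := sel_of_sha hp i0 hV hG h.sha h.fin h.card
  have h2 := lift_sel (k := k) hp hn i hi0.symm hG
    (fun t ht hfix => fixed_tor hp i0 hV hG h.card t ht hfix) (by
      intro q _ ι V' hV' hVd c hc hpc P hP
      have hWV : W.map ((ι.comp i0).comp (algebraMap (𝓞 k) k)) = V' := by
        rw [← hV', ← hV, WeierstrassCurve.map_map, hE, WeierstrassCurve.map_map]
      have hbel : (pls (ι.comp i0)).asIdeal = (pls (ι.comp i)).asIdeal.under (𝓞 k) := by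
        ext x
        rfl
      refine loc_triv k hp hn W (ι.comp i) (by rw [hi0]; rfl) hWV hVd ?_ hc hpc hP
      rcases hfin (pls (ι.comp i)) (pls (ι.comp i0)) hbel with h3 | h3
      · exact Or.inl (dd_of_spl (ι.comp i) h3)
      · exact Or.inr h3) (by
      intro ι V' hV' hVd c hc hpc P hP
      refine loc_inf hp (ι.comp i) hVd ?_ hc hpc hP
      rcases hinf with hp2 | hinf
      · exact Or.inr (Or.inl hp2)
      · by_cases hcj : cj ∈ DD (ι.comp i0)
        · have hr : ComplexEmbedding.IsReal ((ι.comp i).comp (algebraMap k K)) := by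
            rw [ComplexEmbedding.isReal_iff]
            ext x
            exact hcj.2 x
          rcases hinf (ι.comp i) hr with h3 | h3
          · left
            intro σ hσ
            refine ⟨hσ.1, ?_⟩
            rcases iso_complex σ hσ.1 with rfl | rfl
            · intro x; rfl
            · intro x
              exact DFunLike.congr_fun (ComplexEmbedding.isReal_iff.1 h3) x
          · right; right
            intro _
            have h4 : V'.Δ = (ι.comp i) (algebraMap k K (algebraMap (𝓞 k) k W.Δ)) := by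
              rw [← hV', ← hV, WeierstrassCurve.map_Δ, WeierstrassCurve.map_Δ, hE,
                WeierstrassCurve.map_Δ]
              rfl
            rw [h4]
            exact h3
        · exact Or.inr (Or.inr fun h => absurd h hcj)) h1
  have hKG : Gf i ≤ Gf i0 := Gf_le (k := k) i
  obtain ⟨h3, h4⟩ := points_of_sel hKG hG hEKΔ hp h2
  exact ⟨sha_of_sel hKG hG hEKΔ hp h2, h3, h4⟩

end

end Pool.Agent.P8H4.PK
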