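import Mathlib
import Pool.Agent.Y700.VC
import Pool.Agent.TH954.STor

/-!
# Points of a Weierstrass equation over fields: basic facts
-/

set_option autoImplicit false

open WeierstrassCurve

namespace Pool.Agent.P8H4.PK

open Pool.Agent.Y700 (VR nonsing)
open Pool.Agent.H901R3.MS (CV Disc Eqn)

/-- the points of `V` -/
def Pt {L : Type} [Field L] (V : WeierstrassCurve L) : Type := V.toAffine.Point

/-- the group law on the points -/
noncomputable instance Pt.group {L : Type} [Field L] (V : WeierstrassCurve L) :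
    AddCommGroup (Pt V) :=
  @Affine.Point.instAddCommGroup L _ V.toAffine (Classical.decEq L)

section pt

variable {F : Type} [Field F] {V : WeierstrassCurve F}

/-- the point with the coordinates `x`, `y` -/
def pt {x y : F} (h : V.toAffine.Nonsingular x y) : Pt V := Affine.Point.some x y h

lemma pt_ne {x y : F} (h : V.toAffine.Nonsingular x y) : pt h ≠ (0 : Pt V) :=
  Affine.Point.some_ne_zero h

lemma pt_cases (P : Pt V) : P = 0 ∨ ∃ (x y : F) (h : V.toAffine.Nonsingular x y), P = pt h := by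
  rcases P with _ | ⟨x, y, h⟩
  · exact Or.inl rfl
  · exact Or.inr ⟨x, y, h, rfl⟩

lemma pt_inj {x y x' y' : F} {h : V.toAffine.Nonsingular x y}
    {h' : V.toAffine.Nonsingular x' y'} (e : pt h = pt h') : x = x' ∧ y = y' :=
  Affine.Point.some.inj (W' := V.toAffine) e

lemma pt_congr {x y x' y' : F} (h : V.toAffine.Nonsingular x y)
    (h' : V.toAffine.Nonsingular x' y') (hx : x = x') (hy : y = y') : pt h = pt h' := by
  subst hx hy
  rfl

end pt

section mp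

variable {F L M : Type} [Field F] [Field L] [Field M]

lemma ns_map {φ : F →+* L} {V : WeierstrassCurve F} {V' : WeierstrassCurve L} (h : V.map φ = V')
    {x y : F} (hn : V.toAffine.Nonsingular x y) : V'.toAffine.Nonsingular (φ x) (φ y) := by
  subst h
  exact (V.toAffine.map_nonsingular φ.injective x y).2 hn

/-- the map on points given by a homomorphism of fields -/
def mpf (φ : F →+* L) {V : WeierstrassCurve F} {V' : WeierstrassCurve L} (h : V.map φ = V') :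
    Pt V → Pt V'
  | Affine.Point.zero => Affine.Point.zero
  | Affine.Point.some _ _ hn => Affine.Point.some _ _ (ns_map h hn)

lemma mpf_add (φ : F →+* L) {V : WeierstrassCurve F} {V' : WeierstrassCurve L} (h : V.map φ = V')
    (P Q : Pt V) : mpf φ h (P + Q) = mpf φ h P + mpf φ h Q := by
  subst h
  let i1 : Algebra F L := φ.toAlgebra
  let Φ : Pt V →+ Pt (V.map φ) :=
    @Affine.Point.map F F F L _ _ _ _ V (Classical.decEq F) (Classical.decEq L) _ _ _ _ _ _ _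
      (Algebra.ofId F L)
  have key : ∀ P : Pt V, mpf φ rfl P = Φ P := by
    intro P
    rcases P with _ | ⟨x, y, h⟩
    · rfl
    · rfl
  rw [key, key, key]
  exact map_add Φ P Q

/-- the map on points given by a homomorphism of fields -/
noncomputable def mp (φ : F →+* L) {V : WeierstrassCurve F} {V' : WeierstrassCurve L}
    (h : V.map φ = V') : Pt V →+ Pt V' := AddMonoidHom.mk' (mpf φ h) (mpf_add φ h)

lemma mp_pt (φ : F →+* L) {V : WeierstrassCurve F} {V' : WeierstrassCurve L} (h : V.map φ = V')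
    {x y : F} (hn : V.toAffine.Nonsingular x y) : mp φ h (pt hn) = pt (ns_map h hn) := rfl

lemma mp_comp {φ : F →+* L} {ψ : L →+* M} {V : WeierstrassCurve F} {V' : WeierstrassCurve L}
    {V'' : WeierstrassCurve M} (h : V.map φ = V') (h' : V'.map ψ = V'')
    (h'' : V.map (ψ.comp φ) = V'') (P : Pt V) : mp ψ h' (mp φ h P) = mp (ψ.comp φ) h'' P := by
  rcases P with _ | ⟨x, y, h⟩
  · rfl
  · rfl

lemma map_comp {φ : F →+* L} {ψ : L →+* M} {V : WeierstrassCurve F} {V' : WeierstrassCurve L}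
    {V'' : WeierstrassCurve M} (h : V.map φ = V') (h' : V'.map ψ = V'') :
    V.map (ψ.comp φ) = V'' := by
  rw [← h', ← h, WeierstrassCurve.map_map]

lemma mp_id {V : WeierstrassCurve F} (h : V.map (RingHom.id F) = V) (P : Pt V) :
    mp (RingHom.id F) h P = P := by
  rcases P with _ | ⟨x, y, h⟩
  · rfl
  · rfl

lemma mp_one {V : WeierstrassCurve F} {φ : F →+* F} (h : V.map φ = V) (hφ : ∀ x, φ x = x)
    (P : Pt V) : mp φ h P = P := by
  have e : φ = RingHom.id F := RingHom.ext hφ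
  subst e
  exact mp_id h P

lemma mp_inj (φ : F →+* L) {V : WeierstrassCurve F} {V' : WeierstrassCurve L} (h : V.map φ = V') :
    Function.Injective (mp φ h) := by
  intro P Q e
  rcases pt_cases P with rfl | ⟨x, y, hn, rfl⟩ <;> rcases pt_cases Q with rfl | ⟨x', y', hn', rfl⟩
  · rfl
  · rw [map_zero, mp_pt] at e
    exact absurd e.symm (pt_ne _)
  · rw [map_zero, mp_pt] at e
    exact absurd e (pt_ne _)
  · rw [mp_pt, mp_pt] at e
    obtain ⟨e1, e2⟩ := pt_inj e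
    exact pt_congr _ _ (φ.injective e1) (φ.injective e2)

lemma mp_congr {φ ψ : F →+* L} {V : WeierstrassCurve F} {V' : WeierstrassCurve L}
    {h : V.map φ = V'} {h' : V.map ψ = V'} (e : ∀ x, φ x = ψ x) (P : Pt V) :
    mp φ h P = mp ψ h' P := by
  have e' : φ = ψ := RingHom.ext e
  subst e'
  rfl

lemma map_congr {φ ψ : F →+* L} {V : WeierstrassCurve F} (e : ∀ x, φ x = ψ x) :
    V.map φ = V.map ψ := by
  rw [RingHom.ext e]

end mp

section short

variable {F : Type} [Field F] (V : WeierstrassCurve F)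

/-- the coefficients of the short model -/
def sa : F := -27 * V.c₄
/-- the coefficients of the short model -/
def sb : F := -54 * V.c₆

variable {V}

lemma two_ne (h6 : (6 : F) ≠ 0) : (2 : F) ≠ 0 := by
  intro h; apply h6
  have : (6 : F) = 2 * 3 := by norm_num
  rw [this, h, zero_mul]

lemma three_ne (h6 : (6 : F) ≠ 0) : (3 : F) ≠ 0 := by
  intro h; apply h6
  have : (6 : F) = 2 * 3 := by norm_num
  rw [this, h, mul_zero]

lemma vr (V : WeierstrassCurve F) (h6 : (6 : F) ≠ 0) :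
    VR V (CV (sa V) (sb V)) (1 / 6) (-V.b₂ / 12) (-V.a₁ / 2)
      (V.a₁ * V.b₂ / 24 - V.a₃ / 2) := by
  have h2 : (2 : F) ≠ 0 := two_ne h6
  have h3 : (3 : F) ≠ 0 := three_ne h6
  have h12 : (12 : F) ≠ 0 := by
    have : (12 : F) = 2 * 2 * 3 := by norm_num
    rw [this]
    exact mul_ne_zero (mul_ne_zero h2 h2) h3
  have h24 : (24 : F) ≠ 0 := by
    have : (24 : F) = 2 * 2 * 2 * 3 := by norm_num
    rw [this]
    exact mul_ne_zero (mul_ne_zero (mul_ne_zero h2 h2) h2) h3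
  have hb2 : V.b₂ = V.a₁ ^ 2 + 4 * V.a₂ := rfl
  have e1 : (12 : F) = 2 ^ 2 * 3 := by norm_num
  have e2 : (24 : F) = 2 ^ 3 * 3 := by norm_num
  have e3 : (6 : F) = 2 * 3 := by norm_num
  have c4 : -27 * V.c₄ = -27 * ((V.a₁ ^ 2 + 4 * V.a₂) ^ 2 -
      24 * (2 * V.a₄ + V.a₁ * V.a₃)) := rfl
  have c6 : -54 * V.c₆ = -54 * (-(V.a₁ ^ 2 + 4 * V.a₂) ^ 3 +
      36 * (V.a₁ ^ 2 + 4 * V.a₂) * (2 * V.a₄ + V.a₁ * V.a₃) -
      216 * (V.a₃ ^ 2 + 4 * V.a₆)) := rfl
  refine ⟨?_, ?_, ?_, ?_, ?_, ?_⟩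
  · exact one_div_ne_zero h6
  · show (1 / 6) * (0 : F) = V.a₁ + 2 * (-V.a₁ / 2)
    field_simp
    ring
  · show (1 / 6) ^ 2 * (0 : F) = V.a₂ - (-V.a₁ / 2) * V.a₁ +
      3 * (-V.b₂ / 12) - (-V.a₁ / 2) ^ 2
    rw [hb2, e1]
    field_simp
    ring
  · show (1 / 6) ^ 3 * (0 : F) = V.a₃ + (-V.b₂ / 12) * V.a₁ +
      2 * (V.a₁ * V.b₂ / 24 - V.a₃ / 2)
    rw [hb2, e1, e2]
    field_simp
    ring
  · show (1 / 6) ^ 4 * (-27 * V.c₄) = V.a₄ - (-V.a₁ / 2) * V.a₃ +
      2 * (-V.b₂ / 12) * V.a₂ - ((V.a₁ * V.b₂ / 24 - V.a₃ / 2) +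
        (-V.b₂ / 12) * (-V.a₁ / 2)) * V.a₁ + 3 * (-V.b₂ / 12) ^ 2 -
      2 * (-V.a₁ / 2) * (V.a₁ * V.b₂ / 24 - V.a₃ / 2)
    rw [hb2, c4, e1, e2, e3]
    field_simp
    ring
  · show (1 / 6) ^ 6 * (-54 * V.c₆) = V.a₆ + (-V.b₂ / 12) * V.a₄ +
      (-V.b₂ / 12) ^ 2 * V.a₂ + (-V.b₂ / 12) ^ 3 -
      (V.a₁ * V.b₂ / 24 - V.a₃ / 2) * V.a₃ -
      (V.a₁ * V.b₂ / 24 - V.a₃ / 2) ^ 2 -
      (-V.b₂ / 12) * (V.a₁ * V.b₂ / 24 - V.a₃ / 2) * V.a₁
    rw [hb2, c6, e1, e2, e3]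
    field_simp
    ring

lemma disc_eq (V : WeierstrassCurve F) :
    (2 : F) * (4 * sa V ^ 3 + 27 * sb V ^ 2) = -(2 ^ 9 * 3 ^ 12) * V.Δ := by
  unfold sa sb
  linear_combination 157464 * V.c_relation

lemma disc (h6 : (6 : F) ≠ 0) (hΔ : V.Δ ≠ 0) : Disc (sa V) (sb V) := by
  unfold Disc
  rw [disc_eq]
  exact mul_ne_zero (neg_ne_zero.2 (mul_ne_zero (pow_ne_zero _ (two_ne h6))
    (pow_ne_zero _ (three_ne h6)))) hΔ

lemma short_delta (h6 : (6 : F) ≠ 0) (hΔ : V.Δ ≠ 0) : (CV (sa V) (sb V)).Δ ≠ 0 := by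
  have e : (CV (sa V) (sb V)).Δ = -8 * (2 * (4 * sa V ^ 3 + 27 * sb V ^ 2)) := by
    simp only [WeierstrassCurve.Δ, WeierstrassCurve.b₂, WeierstrassCurve.b₄, WeierstrassCurve.b₆,
      WeierstrassCurve.b₈, CV]
    ring
  rw [e]
  refine mul_ne_zero ?_ (disc h6 hΔ)
  have : (-8 : F) = -(2 ^ 3) := by norm_num
  rw [this]
  exact neg_ne_zero.2 (pow_ne_zero _ (two_ne h6))

open scoped Classical in
/-- the isomorphism with the short model -/
noncomputable def eqv (h6 : (6 : F) ≠ 0) (hΔ : V.Δ ≠ 0) :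
    (CV (sa V) (sb V)).toAffine.Point ≃+ Pt V :=
  (vr V h6).equiv (short_delta h6 hΔ)

lemma eqv_some (h6 : (6 : F) ≠ 0) (hΔ : V.Δ ≠ 0) {x y : F}
    (h : (CV (sa V) (sb V)).toAffine.Nonsingular x y) :
    eqv h6 hΔ (Affine.Point.some x y h) = pt
      (x := (1 / 6) ^ 2 * x + -V.b₂ / 12)
      (y := (1 / 6) ^ 3 * y + (1 / 6) ^ 2 * (-V.a₁ / 2) * x +
        (V.a₁ * V.b₂ / 24 - V.a₃ / 2))
      (nonsing ((vr V h6).delta_ne (short_delta h6 hΔ)) ((vr V h6).eqn.2 h.1)) := rfl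

open scoped Classical in
/-- the form of the point in the short model -/
lemma eqv_symm_pt (h6 : (6 : F) ≠ 0) (hΔ : V.Δ ≠ 0) {X Y : F}
    (H : V.toAffine.Nonsingular X Y) :
    ∃ x y, ∃ h : (CV (sa V) (sb V)).toAffine.Nonsingular x y,
      (eqv h6 hΔ).symm (pt H) = Affine.Point.some x y h ∧
      X = (1 / 6) ^ 2 * x + -V.b₂ / 12 ∧
      Y = (1 / 6) ^ 3 * y + (1 / 6) ^ 2 * (-V.a₁ / 2) * x +
        (V.a₁ * V.b₂ / 24 - V.a₃ / 2) := by
  rcases e : (eqv h6 hΔ).symm (pt H) with _ | ⟨x, y, h⟩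
  · exfalso
    have h3 := ((eqv h6 hΔ).apply_symm_apply (pt H)).symm.trans (congrArg (eqv h6 hΔ) e)
    exact absurd h3 (Affine.Point.some_ne_zero H)
  · refine ⟨x, y, h, rfl, ?_⟩
    have h3 := ((eqv h6 hΔ).apply_symm_apply (pt H)).symm.trans (congrArg (eqv h6 hΔ) e)
    have h4 := h3.trans (eqv_some (V := V) h6 hΔ h)
    exact pt_inj h4

end short

section tor

open Pool.Agent.TH954 Pool.Agent.TH942

variable {L : Type} [Field L] [IsAlgClosed L] [CharZero L] {V : WeierstrassCurve L}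

open scoped Classical in
/-- division of points -/
theorem exists_div (hΔ : V.Δ ≠ 0) {n : ℕ} (hn : 1 ≤ n) (P : Pt V) : ∃ Q : Pt V, n • Q = P := by
  have h6 : (6 : L) ≠ 0 := by norm_num
  obtain ⟨Q, hQ⟩ := exists_nsmul_eq (disc h6 hΔ) hn ((eqv h6 hΔ).symm P)
  refine ⟨eqv h6 hΔ Q, ?_⟩
  have h1 := congrArg (eqv h6 hΔ) hQ
  rw [AddEquiv.apply_symm_apply] at h1
  rw [← map_nsmul]
  exact h1

open scoped Classical in
/-- the torsion points are finite in number -/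
theorem tor_fin (hΔ : V.Δ ≠ 0) {n : ℕ} (hn : 1 ≤ n) : {P : Pt V | n • P = 0}.Finite := by
  have h6 : (6 : L) ≠ 0 := by norm_num
  have h1 := (torCount L _ _ (disc h6 hΔ) n hn).1.image (eqv h6 hΔ)
  refine h1.subset fun P hP => ⟨(eqv h6 hΔ).symm P, ?_, AddEquiv.apply_symm_apply _ _⟩
  have hP' : n • P = 0 := hP
  show n • (eqv h6 hΔ).symm P = 0
  rw [← map_nsmul, hP', map_zero]

end tor

end Pool.Agent.P8H4.PK
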