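import Pool.Agent.P8H4.PK.Sel
import Pool.Agent.P8H4.PL.Dic

/-!
# The comparison of the local conditions
-/

set_option autoImplicit false

open NumberField IsDedekindDomain WeierstrassCurve

namespace Pool.Agent.P8H4.PK

open Pool.Agent.P8H4.PL (Gf gal_of_fix plcK real_aut)
open Pool.Agent.P8H4.PL.Fr (Gq norm_eqv)
open Pool.Agent.TH841.NF (pls jc jc_coe fix_lf lf)
open Pool.Agent.TH841.SH.D (act Gal Coch IsCoc IsCob LocTriv)

section tr

variable {F : Type} [Field F] (E : WeierstrassCurve F)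

/-- the points in the sense of the library -/
noncomputable def tr (L : Type) [Field L] [Algebra F L] :
    Pool.Agent.TH841.SH.D.Pt E L ≃+ Pt (E.baseChange L) where
  toFun P := P
  invFun P := P
  left_inv _ := rfl
  right_inv _ := rfl
  map_add' _ _ := rfl

variable {E}

lemma bc_map {L M : Type} [Field L] [Algebra F L] [Field M] [Algebra F M] (φ : L →ₐ[F] M) :
    (E.baseChange L).map (φ : L →+* M) = E.baseChange M := by
  show (E.map _).map _ = E.map _
  rw [WeierstrassCurve.map_map]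
  congr 1
  exact φ.comp_algebraMap

lemma tr_act {L M : Type} [Field L] [Algebra F L] [Field M] [Algebra F M] (φ : L →ₐ[F] M)
    (P : Pool.Agent.TH841.SH.D.Pt E L) :
    tr E M (act E φ P) = mp (φ : L →+* M) (bc_map φ) (tr E L P) := by
  rcases P with _ | ⟨x, y, hn⟩ <;> rfl

end tr

section loc

variable {F : Type} [Field F] {E : WeierstrassCurve F}

/-- local triviality in the sense of the library implies local triviality for the embeddings -/
theorem emb_of_loc {Kv : Type} [Field Kv] [Algebra F Kv] {C : Type} [Field C] [IsAlgClosed C]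
    (f : Coch E) (hf : LocTriv E Kv f) (jv : Kv →+* C) (ι : AlgebraicClosure F →+* C)
    (hι : ∀ x : F, ι (algebraMap F (AlgebraicClosure F) x) = jv (algebraMap F Kv x))
    (V' : WeierstrassCurve C) (hV' : (E.baseChange (AlgebraicClosure F)).map ι = V') :
    ∃ P : Pt V', ∀ (τ : RingAut C) (h : V'.map ((τ : C ≃+* C) : C →+* C) = V'),
      (∀ y : Kv, τ (jv y) = jv y) → ∀ σ : Gal F, (∀ x, τ (ι x) = ι (σ x)) →
      mp ι hV' (tr E (AlgebraicClosure F) (f σ)) = mp ((τ : C ≃+* C) : C →+* C) h P - P := by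
  let i1 : Algebra Kv C := jv.toAlgebra
  let κ : AlgebraicClosure Kv →ₐ[Kv] C := IsAlgClosed.lift
  have hκ : ∀ x : Kv, κ (algebraMap _ (AlgebraicClosure Kv) x) = jv x := fun x => κ.commutes x
  let ι₀ : AlgebraicClosure F →ₐ[F] AlgebraicClosure Kv := IsAlgClosed.lift
  let i2 : Algebra (AlgebraicClosure F) C := ((κ : AlgebraicClosure Kv →+* C).comp
    (ι₀ : AlgebraicClosure F →+* AlgebraicClosure Kv)).toAlgebra
  let i3 : Algebra F C := (jv.comp (algebraMap F Kv)).toAlgebra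
  have hcj : ∀ x : F, κ (ι₀ (algebraMap F (AlgebraicClosure F) x)) = jv (algebraMap F Kv x) := by
    intro x
    rw [ι₀.commutes]
    have h1 : algebraMap F (AlgebraicClosure Kv) x = algebraMap Kv (AlgebraicClosure Kv)
      (algebraMap F Kv x) := IsScalarTower.algebraMap_apply F _ _ x
    rw [h1, hκ]
  have : IsScalarTower F (AlgebraicClosure F) C :=
    IsScalarTower.of_algebraMap_eq fun x => (hcj x).symm
  let ιA : AlgebraicClosure F →ₐ[F] C := { ι with commutes' := fun x => hι x }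
  let s : AlgebraicClosure F →ₐ[F] AlgebraicClosure F := ιA.restrictNormal (AlgebraicClosure F)
  have hs : ∀ x, κ (ι₀ (s x)) = ι x := fun x =>
    ιA.restrictNormal_commutes (AlgebraicClosure F) x
  let ι' : AlgebraicClosure F →ₐ[F] AlgebraicClosure Kv := ι₀.comp s
  have hι' : ∀ x, κ (ι' x) = ι x := hs
  obtain ⟨P, hP⟩ := hf ι'
  have hκV : (E.baseChange (AlgebraicClosure Kv)).map (κ : AlgebraicClosure Kv →+* C) = V' := by
    rw [← hV']
    show (E.map _).map _ = (E.map _).map _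
    rw [WeierstrassCurve.map_map, WeierstrassCurve.map_map]
    congr 1
    ext x
    show κ (algebraMap F (AlgebraicClosure Kv) x) = ι (algebraMap F (AlgebraicClosure F) x)
    rw [← hι', ι'.commutes]
  refine ⟨mp (κ : AlgebraicClosure Kv →+* C) hκV (tr E _ P), fun τ h hτ σ hc => ?_⟩
  -- the induced automorphism
  let i4 : Algebra (AlgebraicClosure Kv) C := (κ : AlgebraicClosure Kv →+* C).toAlgebra
  have : IsScalarTower Kv (AlgebraicClosure Kv) C :=
    IsScalarTower.of_algebraMap_eq fun x => (hκ x).symm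
  let τA : C ≃ₐ[Kv] C := AlgEquiv.ofRingEquiv (f := (τ : C ≃+* C)) hτ
  let τ' : AlgebraicClosure Kv ≃ₐ[Kv] AlgebraicClosure Kv := τA.restrictNormal (AlgebraicClosure Kv)
  have hτ' : ∀ x, κ (τ' x) = τ (κ x) := fun x => τA.restrictNormal_commutes (AlgebraicClosure Kv) x
  have hc' : ∀ x, τ' (ι' x) = ι' (σ x) := by
    intro x
    apply (κ : AlgebraicClosure Kv →+* C).injective
    show κ (τ' (ι' x)) = κ (ι' (σ x))
    rw [hτ', hι', hι', hc]
  have h1 := congrArg (fun z => mp (κ : AlgebraicClosure Kv →+* C) hκV (tr E _ z)) (hP τ' σ hc')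
  simp only [map_sub] at h1
  have e1 : mp (κ : AlgebraicClosure Kv →+* C) hκV (tr E _ (act E ι' (f σ))) =
      mp ι hV' (tr E (AlgebraicClosure F) (f σ)) := by
    rw [tr_act, mp_comp _ _ (map_comp (bc_map ι') hκV)]
    exact mp_congr (fun x => hι' x) _
  have e2 : mp (κ : AlgebraicClosure Kv →+* C) hκV (tr E _ (act E
      (τ'.toAlgHom.restrictScalars F) P)) = mp ((τ : C ≃+* C) : C →+* C) h
        (mp (κ : AlgebraicClosure Kv →+* C) hκV (tr E _ P)) := by
    rw [tr_act, mp_comp _ _ (map_comp (bc_map (τ'.toAlgHom.restrictScalars F)) hκV),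
      mp_comp _ _ (map_comp hκV h)]
    exact mp_congr (fun x => hτ' x) _
  rw [e1, e2] at h1
  exact h1

/-- conversely -/
theorem loc_of_emb {Kv : Type} [Field Kv] [Algebra F Kv] {C : Type} [NormedField C]
    (f : Coch E) (Φ : AlgebraicClosure Kv ≃+* C)
    (hΦ : ∀ τ : Gal Kv, ∃ τ' : RingAut C, (∀ x, ‖τ' x‖ = ‖x‖) ∧ ∀ x, Φ (τ x) = τ' (Φ x))
    (hf : ∀ (ι : AlgebraicClosure F →+* C) (V' : WeierstrassCurve C)
      (hV' : (E.baseChange (AlgebraicClosure F)).map ι = V'),
      ∃ P : Pt V', ∀ (τ : RingAut C) (h : V'.map ((τ : C ≃+* C) : C →+* C) = V'),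
      (∀ x, ‖τ x‖ = ‖x‖) → ∀ σ : Gal F, (∀ x, τ (ι x) = ι (σ x)) →
      mp ι hV' (tr E (AlgebraicClosure F) (f σ)) = mp ((τ : C ≃+* C) : C →+* C) h P - P) :
    LocTriv E Kv f := by
  intro ι'
  let V' : WeierstrassCurve C := (E.baseChange (AlgebraicClosure Kv)).map (Φ : AlgebraicClosure Kv →+* C)
  have hV' : (E.baseChange (AlgebraicClosure F)).map ((Φ : AlgebraicClosure Kv →+* C).comp
      (ι' : AlgebraicClosure F →+* AlgebraicClosure Kv)) = V' := map_comp (bc_map ι') rfl
  have hVs : V'.map (Φ.symm : C →+* AlgebraicClosure Kv) = E.baseChange (AlgebraicClosure Kv) := by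
    show ((E.baseChange (AlgebraicClosure Kv)).map _).map _ = _
    rw [WeierstrassCurve.map_map]
    have : (Φ.symm : C →+* AlgebraicClosure Kv).comp (Φ : AlgebraicClosure Kv →+* C) =
        RingHom.id _ := RingHom.ext fun x => Φ.symm_apply_apply x
    rw [this, WeierstrassCurve.map_id]
  obtain ⟨P, hP⟩ := hf _ V' hV'
  refine ⟨(tr E _).symm (mp (Φ.symm : C →+* AlgebraicClosure Kv) hVs P), fun τ σ h => ?_⟩
  obtain ⟨τ', hτi, hτ'⟩ := hΦ τ
  have hτV : V'.map ((τ' : C ≃+* C) : C →+* C) = V' := by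
    show ((E.baseChange (AlgebraicClosure Kv)).map _).map _ = (E.baseChange (AlgebraicClosure Kv)).map _
    rw [WeierstrassCurve.map_map]
    have : ((τ' : C ≃+* C) : C →+* C).comp (Φ : AlgebraicClosure Kv →+* C) =
        (Φ : AlgebraicClosure Kv →+* C).comp ((τ : AlgebraicClosure Kv ≃ₐ[Kv] AlgebraicClosure Kv) :
          AlgebraicClosure Kv →+* AlgebraicClosure Kv) := RingHom.ext fun x => (hτ' x).symm
    rw [this, ← WeierstrassCurve.map_map]
    congr 1
    exact bc_map (E := E) (τ.toAlgHom.restrictScalars F)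
  have h1 := hP τ' hτV hτi σ (by
    intro x
    show τ' (Φ (ι' x)) = Φ (ι' (σ x))
    rw [← hτ', h])
  apply (tr E _).injective
  rw [map_sub, AddEquiv.apply_symm_apply, tr_act, tr_act, AddEquiv.apply_symm_apply]
  have h2 := congrArg (mp (Φ.symm : C →+* AlgebraicClosure Kv) hVs) h1
  rw [map_sub, mp_comp _ _ (map_comp hV' hVs)] at h2
  have e1 : mp ((Φ.symm : C →+* AlgebraicClosure Kv).comp ((Φ : AlgebraicClosure Kv →+* C).comp
      (ι' : AlgebraicClosure F →+* AlgebraicClosure Kv))) (map_comp hV' hVs)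
        (tr E (AlgebraicClosure F) (f σ)) =
      mp (ι' : AlgebraicClosure F →+* AlgebraicClosure Kv) (bc_map ι')
        (tr E (AlgebraicClosure F) (f σ)) :=
    mp_congr (fun x => Φ.symm_apply_apply _) _
  have e2 : mp (Φ.symm : C →+* AlgebraicClosure Kv) hVs (mp ((τ' : C ≃+* C) : C →+* C) hτV P) =
      mp ((τ.toAlgHom.restrictScalars F : AlgebraicClosure Kv →ₐ[F] AlgebraicClosure Kv) :
        AlgebraicClosure Kv →+* AlgebraicClosure Kv) (bc_map (τ.toAlgHom.restrictScalars F))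
        (mp (Φ.symm : C →+* AlgebraicClosure Kv) hVs P) := by
    rw [mp_comp _ _ (map_comp hτV hVs), mp_comp _ _ (map_comp hVs
      (bc_map (τ.toAlgHom.restrictScalars F)))]
    refine mp_congr (fun x => ?_) _
    show Φ.symm (τ' x) = τ (Φ.symm x)
    apply Φ.injective
    rw [RingEquiv.apply_symm_apply, hτ', RingEquiv.apply_symm_apply]
  rw [e1, e2] at h2
  exact h2

end loc

section places

variable {F : Type} [Field F] [NumberField F] {E : WeierstrassCurve F}

/-- at the finite places -/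
theorem emb_fin (f : Coch E) (hf : ∀ v : HeightOneSpectrum (𝓞 F), LocTriv E (v.adicCompletion F) f)
    (q : ℕ) [Fact q.Prime] (ι : AlgebraicClosure F →+* PadicAlgCl q)
    (V' : WeierstrassCurve (PadicAlgCl q)) (hV' : (E.baseChange (AlgebraicClosure F)).map ι = V') :
    ∃ P : Pt V', ∀ (τ : RingAut (PadicAlgCl q))
      (h : V'.map ((τ : PadicAlgCl q ≃+* PadicAlgCl q) : PadicAlgCl q →+* PadicAlgCl q) = V'),
      (∀ x, ‖τ x‖ = ‖x‖) → ∀ σ : Gal F, (∀ x, τ (ι x) = ι (σ x)) →
      mp ι hV' (tr E (AlgebraicClosure F) (f σ)) =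
        mp ((τ : PadicAlgCl q ≃+* PadicAlgCl q) : PadicAlgCl q →+* PadicAlgCl q) h P - P := by
  set j : F →+* PadicAlgCl q := ι.comp (algebraMap F (AlgebraicClosure F)) with hj
  obtain ⟨P, hP⟩ := emb_of_loc f (hf (pls j)) (jc j) ι (fun x => (jc_coe j x).symm) V' hV'
  refine ⟨P, fun τ h hi σ hc => hP τ h ?_ σ hc⟩
  intro y
  obtain ⟨τ', rfl⟩ := exists_gq τ hi
  exact fix_lf j τ' (by
    intro x
    show toR τ' (ι (algebraMap F _ x)) = ι (algebraMap F _ x)
    rw [hc, σ.commutes]) (Subtype.property _)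

theorem loc_fin (f : Coch E)
    (hf : ∀ (q : ℕ) [Fact q.Prime] (ι : AlgebraicClosure F →+* PadicAlgCl q)
      (V' : WeierstrassCurve (PadicAlgCl q)) (hV' : (E.baseChange (AlgebraicClosure F)).map ι = V'),
      ∃ P : Pt V', ∀ (τ : RingAut (PadicAlgCl q))
      (h : V'.map ((τ : PadicAlgCl q ≃+* PadicAlgCl q) : PadicAlgCl q →+* PadicAlgCl q) = V'),
      (∀ x, ‖τ x‖ = ‖x‖) → ∀ σ : Gal F, (∀ x, τ (ι x) = ι (σ x)) →
      mp ι hV' (tr E (AlgebraicClosure F) (f σ)) =
        mp ((τ : PadicAlgCl q ≃+* PadicAlgCl q) : PadicAlgCl q →+* PadicAlgCl q) h P - P)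
    (v : HeightOneSpectrum (𝓞 F)) : LocTriv E (v.adicCompletion F) f := by
  obtain ⟨q, hq, Φ, hΦ⟩ := plcK F v
  refine loc_of_emb f Φ (fun τ => ?_) (hf q)
  obtain ⟨τ', hτ'⟩ := hΦ τ
  exact ⟨toR τ', fun x => norm_eqv τ' x, hτ'⟩

/-- at the infinite places -/
theorem emb_inf (f : Coch E) (hf : ∀ v : InfinitePlace F, LocTriv E v.Completion f)
    (ι : AlgebraicClosure F →+* ℂ) (V' : WeierstrassCurve ℂ)
    (hV' : (E.baseChange (AlgebraicClosure F)).map ι = V') :
    ∃ P : Pt V', ∀ (τ : RingAut ℂ) (h : V'.map ((τ : ℂ ≃+* ℂ) : ℂ →+* ℂ) = V'),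
      (∀ x, ‖τ x‖ = ‖x‖) → ∀ σ : Gal F, (∀ x, τ (ι x) = ι (σ x)) →
      mp ι hV' (tr E (AlgebraicClosure F) (f σ)) = mp ((τ : ℂ ≃+* ℂ) : ℂ →+* ℂ) h P - P := by
  set j : F →+* ℂ := ι.comp (algebraMap F (AlgebraicClosure F)) with hj
  set v : InfinitePlace F := InfinitePlace.mk j with hv
  -- the embedding of the completion
  obtain ⟨jv, hjv, hjr⟩ : ∃ jv : v.Completion →+* ℂ,
      (∀ x : F, j x = jv (algebraMap F v.Completion x)) ∧
      (v.IsReal → ∀ y, (starRingEnd ℂ) (jv y) = jv y) := by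
    have hreal : v.IsReal → ∀ y, (starRingEnd ℂ) (InfinitePlace.Completion.extensionEmbedding v y) =
        InfinitePlace.Completion.extensionEmbedding v y := by
      intro hr y
      have h1 := InfinitePlace.Completion.extensionEmbeddingOfIsReal_apply hr y
      rw [← h1]
      exact Complex.conj_ofReal _
    have hcoe : ∀ x : F, InfinitePlace.Completion.extensionEmbedding v
        (algebraMap F v.Completion x) = v.embedding x := fun x =>
      InfinitePlace.Completion.extensionEmbedding_coe v ((WithAbs.equiv v.1).symm x)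
    rcases InfinitePlace.mk_eq_iff.1 (InfinitePlace.mk_embedding v) with h | h
    · refine ⟨InfinitePlace.Completion.extensionEmbedding v, fun x => ?_, hreal⟩
      rw [← h]
      exact (hcoe x).symm
    · refine ⟨(starRingEnd ℂ).comp (InfinitePlace.Completion.extensionEmbedding v), fun x => ?_, ?_⟩
      · rw [← h]
        show (starRingEnd ℂ) (v.embedding x) = (starRingEnd ℂ)
          (InfinitePlace.Completion.extensionEmbedding v (algebraMap F v.Completion x))
        rw [hcoe]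
      · intro hr y
        show (starRingEnd ℂ) ((starRingEnd ℂ) _) = (starRingEnd ℂ) _
        rw [Complex.conj_conj, hreal hr]
  obtain ⟨P, hP⟩ := emb_of_loc f (hf v) jv ι (fun x => hjv x) V' hV'
  refine ⟨P, fun τ h hi σ hc => hP τ h ?_ σ hc⟩
  rcases iso_complex τ hi with rfl | rfl
  · intro y; rfl
  · apply hjr
    rw [InfinitePlace.isReal_iff]
    have h1 : ComplexEmbedding.IsReal j := by
      rw [ComplexEmbedding.isReal_iff]
      ext x
      show (starRingEnd ℂ) (ι (algebraMap F _ x)) = ι (algebraMap F _ x)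
      have h2 : cj (ι (algebraMap F _ x)) = ι (σ (algebraMap F _ x)) := hc _
      rw [σ.commutes] at h2
      exact h2
    rcases InfinitePlace.mk_eq_iff.1 (InfinitePlace.mk_embedding v) with h | h
    · rw [h]; exact h1
    · rw [← ComplexEmbedding.isReal_conjugate_iff, h]; exact h1

/-- an isomorphism of an algebraic closure of the real or complex numbers with `ℂ` for which all
automorphisms are isometric -/
lemma real_phi {R C : Type} [Field R] [Field C] [Algebra R C] [IsAlgClosure R C]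
    (h : Nonempty (R ≃+* ℝ) ∨ Nonempty (R ≃+* ℂ)) :
    ∃ Φ : C ≃+* ℂ, ∀ τ : C ≃ₐ[R] C, ∃ τ' : RingAut ℂ, (∀ x, ‖τ' x‖ = ‖x‖) ∧
      ∀ x, Φ (τ x) = τ' (Φ x) := by
  have hC : IsAlgClosed C := IsAlgClosure.isAlgClosed R
  have halg : Algebra.IsAlgebraic R C := IsAlgClosure.isAlgebraic
  rcases h with ⟨⟨e⟩⟩ | ⟨⟨e⟩⟩
  · let i1 : Algebra ℝ R := e.symm.toRingHom.toAlgebra
    let i2 : Algebra ℝ C := ((algebraMap R C).comp e.symm.toRingHom).toAlgebra
    have : IsScalarTower ℝ R C := IsScalarTower.of_algebraMap_eq fun x => rfl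
    have h1 : Algebra.IsAlgebraic ℝ R := ⟨fun x => by
      have : x = algebraMap ℝ R (e x) := (e.symm_apply_apply x).symm
      rw [this]
      exact isAlgebraic_algebraMap _⟩
    have h2 : Algebra.IsAlgebraic ℝ C := Algebra.IsAlgebraic.trans ℝ R C
    have : IsAlgClosure ℝ C := ⟨inferInstance, inferInstance⟩
    have : IsAlgClosure ℝ ℂ := ⟨inferInstance, Algebra.IsAlgebraic.of_finite ℝ ℂ⟩
    let c : C ≃ₐ[ℝ] ℂ := IsAlgClosure.equiv ℝ C ℂ
    refine ⟨c.toRingEquiv, fun τ => ?_⟩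
    let τ' : ℂ ≃ₐ[ℝ] ℂ := (c.symm.trans (τ.restrictScalars ℝ)).trans c
    have hτ' : ∀ x, c (τ x) = τ' (c x) := by
      intro x
      show _ = c (τ (c.symm (c x)))
      rw [c.symm_apply_apply]
    refine ⟨τ'.toRingEquiv, fun x => ?_, hτ'⟩
    rcases Complex.real_algHom_eq_id_or_conj τ'.toAlgHom with h | h
    · have : τ' x = x := DFunLike.congr_fun h x
      show ‖τ' x‖ = _
      rw [this]
    · have : τ' x = (starRingEnd ℂ) x := DFunLike.congr_fun h x
      show ‖τ' x‖ = _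
      rw [this]
      exact RCLike.norm_conj x
  · have h1 : IsAlgClosed R := IsAlgClosed.of_ringEquiv ℂ R e.symm
    have hb := IsAlgClosed.algebraMap_bijective_of_isIntegral (k := R) (K := C)
    let c : R ≃+* C := RingEquiv.ofBijective (algebraMap R C) hb
    refine ⟨c.symm.trans e, fun τ => ⟨1, fun _ => rfl, fun x => ?_⟩⟩
    obtain ⟨y, rfl⟩ := hb.2 x
    rw [τ.commutes]
    rfl

theorem loc_infp (f : Coch E)
    (hf : ∀ (ι : AlgebraicClosure F →+* ℂ) (V' : WeierstrassCurve ℂ)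
      (hV' : (E.baseChange (AlgebraicClosure F)).map ι = V'),
      ∃ P : Pt V', ∀ (τ : RingAut ℂ) (h : V'.map ((τ : ℂ ≃+* ℂ) : ℂ →+* ℂ) = V'),
      (∀ x, ‖τ x‖ = ‖x‖) → ∀ σ : Gal F, (∀ x, τ (ι x) = ι (σ x)) →
      mp ι hV' (tr E (AlgebraicClosure F) (f σ)) = mp ((τ : ℂ ≃+* ℂ) : ℂ →+* ℂ) h P - P)
    (v : InfinitePlace F) : LocTriv E v.Completion f := by
  have hv : Nonempty (v.Completion ≃+* ℝ) ∨ Nonempty (v.Completion ≃+* ℂ) := by
    rcases v.isReal_or_isComplex with h | h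
    · exact Or.inl ⟨InfinitePlace.Completion.ringEquivRealOfIsReal h⟩
    · exact Or.inr ⟨InfinitePlace.Completion.ringEquivComplexOfIsComplex h⟩
  obtain ⟨Φ, hΦ⟩ := real_phi (C := AlgebraicClosure v.Completion) hv
  exact loc_of_emb f Φ hΦ hf

end places

end Pool.Agent.P8H4.PK
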