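import Pool.Agent.P8H4.PK.Loc

/-!
# Local cocycles at the infinite places
-/

set_option autoImplicit false

open NumberField IsDedekindDomain WeierstrassCurve

namespace Pool.Agent.P8H4.PK

open Pool.Agent.H901R3.MS (CV Disc Eqn nonsingular_iff eqn_of equation_iff neg_some' add_ne)

section eqv

variable {F L : Type} [Field F] [Field L]

lemma sa_map (φ : F →+* L) (V : WeierstrassCurve F) : sa (V.map φ) = φ (sa V) := by
  unfold sa
  rw [WeierstrassCurve.map_c₄, map_mul, map_neg, map_ofNat]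

lemma sb_map (φ : F →+* L) (V : WeierstrassCurve F) : sb (V.map φ) = φ (sb V) := by
  unfold sb
  rw [WeierstrassCurve.map_c₆, map_mul, map_neg, map_ofNat]

/-- the isomorphism with the short model is compatible with homomorphisms of fields -/
lemma eqv_map (φ : F →+* L) {V : WeierstrassCurve F} {V' : WeierstrassCurve L} (h : V.map φ = V')
    (h6 : (6 : F) ≠ 0) (h6' : (6 : L) ≠ 0) (hΔ : V.Δ ≠ 0) (hΔ' : V'.Δ ≠ 0) {x y : F}
    (hn : (CV (sa V) (sb V)).toAffine.Nonsingular x y)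
    (hn' : (CV (sa V') (sb V')).toAffine.Nonsingular (φ x) (φ y)) :
    mp φ h (eqv h6 hΔ (Affine.Point.some x y hn)) =
      eqv h6' hΔ' (Affine.Point.some (φ x) (φ y) hn') := by
  subst h
  rw [eqv_some, mp_pt, eqv_some]
  apply pt_congr
  · simp only [map_add, map_mul, map_pow, map_div₀, map_neg, map_ofNat, map_one,
      WeierstrassCurve.map_b₂]
  · simp only [map_add, map_sub, map_mul, map_pow, map_div₀, map_neg, map_ofNat, map_one,
      WeierstrassCurve.map_b₂]
    rfl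

end eqv

/-- complex conjugation -/
noncomputable def cj : RingAut ℂ := (starRingAut : ℂ ≃+* ℂ)

lemma cj_apply (z : ℂ) : cj z = (starRingEnd ℂ) z := rfl

/-- isometric automorphisms of the complex numbers -/
lemma iso_complex (τ : RingAut ℂ) (hτ : ∀ x, ‖τ x‖ = ‖x‖) : τ = 1 ∨ τ = cj := by
  have hcont : Continuous τ := by
    rw [Metric.continuous_iff]
    intro b ε hε
    refine ⟨ε, hε, fun a ha => ?_⟩
    rw [dist_eq_norm, ← map_sub, hτ, ← dist_eq_norm]
    exact ha
  have hreal : ∀ r : ℝ, τ (r : ℂ) = (r : ℂ) := by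
    intro r
    have h1 : ((τ : ℂ ≃+* ℂ) : ℂ →+* ℂ).comp Complex.ofRealHom = Complex.ofRealHom := by
      have hc1 : Continuous (((τ : ℂ ≃+* ℂ) : ℂ →+* ℂ).comp Complex.ofRealHom) :=
        hcont.comp Complex.continuous_ofReal
      have hd : DenseRange ((↑) : ℚ → ℝ) := Rat.denseRange_cast
      apply RingHom.ext
      intro x
      have := hd.equalizer hc1 Complex.continuous_ofReal (by
        funext y
        show τ (((y : ℚ) : ℝ) : ℂ) = (((y : ℚ) : ℝ) : ℂ)
        rw [Complex.ofReal_ratCast]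
        exact map_ratCast τ y)
      exact congrFun this x
    exact DFunLike.congr_fun h1 r
  let τ' : ℂ →ₐ[ℝ] ℂ := { ((τ : ℂ ≃+* ℂ) : ℂ →+* ℂ) with commutes' := hreal }
  rcases Complex.real_algHom_eq_id_or_conj τ' with h | h
  · left
    ext x
    exact DFunLike.congr_fun h x
  · right
    ext x
    exact DFunLike.congr_fun h x

open scoped Classical in
/-- the first cohomology group of the two-torsion at a real place with negative discriminant -/
theorem h1_real {V : WeierstrassCurve ℂ} (hV : V.map ((cj : ℂ ≃+* ℂ) : ℂ →+* ℂ) = V)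
    (hΔ : V.Δ.re < 0) (c : Pt V) (h2 : 2 • c = 0)
    (hc : mp ((cj : ℂ ≃+* ℂ) : ℂ →+* ℂ) hV c = c) :
    ∃ T : Pt V, c = mp ((cj : ℂ ≃+* ℂ) : ℂ →+* ℂ) hV T - T := by
  set φ : ℂ →+* ℂ := ((cj : ℂ ≃+* ℂ) : ℂ →+* ℂ) with hφ
  have hφa : ∀ z : ℂ, φ z = (starRingEnd ℂ) z := fun z => rfl
  have h6 : (6 : ℂ) ≠ 0 := by norm_num
  have hΔ0 : V.Δ ≠ 0 := by
    intro h
    rw [h] at hΔ
    simp at hΔ
  have hsa : φ (sa V) = sa V := by rw [← sa_map, hV]
  have hsb : φ (sb V) = sb V := by rw [← sb_map, hV]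
  have hΔr : φ V.Δ = V.Δ := by
    have := WeierstrassCurve.map_Δ (W := V) φ
    rw [hV] at this
    exact this.symm
  obtain ⟨α, hα⟩ := Complex.conj_eq_iff_real.1 hsa
  obtain ⟨β, hβ⟩ := Complex.conj_eq_iff_real.1 hsb
  obtain ⟨δ, hδ⟩ := Complex.conj_eq_iff_real.1 hΔr
  have hδ0 : δ < 0 := by rw [hδ, Complex.ofReal_re] at hΔ; exact hΔ
  have hdisc : 2 * (4 * α ^ 3 + 27 * β ^ 2) = -(2 ^ 9 * 3 ^ 12) * δ := by
    have := disc_eq V
    rw [hα, hβ, hδ] at this
    exact_mod_cast this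
  have hD : Disc (sa V) (sb V) := disc h6 hΔ0
  rcases pt_cases c with rfl | ⟨X, Y, H, rfl⟩
  · exact ⟨0, by rw [map_zero, sub_zero]⟩
  obtain ⟨x, y, hn, e, -, -⟩ := eqv_symm_pt (V := V) h6 hΔ0 H
  have ec : pt H = eqv h6 hΔ0 (Affine.Point.some x y hn) := by
    rw [← e]
    exact ((eqv h6 hΔ0).apply_symm_apply (pt H)).symm
  have h5 : 2 • (Affine.Point.some x y hn : (CV (sa V) (sb V)).toAffine.Point) = 0 := by
    rw [← e, ← map_nsmul, h2, map_zero]
  have hyneg : (CV (sa V) (sb V)).toAffine.negY x y = -y := by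
    simp only [Affine.negY, CV]
    ring
  have hy0 : y = 0 := by
    have h7 : (Affine.Point.some x y hn : (CV (sa V) (sb V)).toAffine.Point) =
        -Affine.Point.some x y hn := by
      rw [two_smul] at h5
      exact eq_neg_of_add_eq_zero_left h5
    rw [Affine.Point.neg_some] at h7
    have h8 := (Affine.Point.some.inj h7).2
    have h9 : y = -y := h8.trans hyneg
    have : 2 * y = 0 := by linear_combination h9
    exact (mul_eq_zero.1 this).resolve_left two_ne_zero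
  -- the abscissa is real
  have hnφ : (CV (sa V) (sb V)).toAffine.Nonsingular (φ x) (φ y) := by
    rw [nonsingular_iff hD]
    have h7 := eqn_of hn
    unfold Eqn at h7 ⊢
    have h8 := congrArg φ h7
    simp only [map_add, map_mul, map_pow] at h8
    rw [hsa, hsb] at h8
    exact h8
  have hxφ : φ x = x := by
    have h7 := hc
    rw [ec, eqv_map φ hV h6 h6 hΔ0 hΔ0 hn hnφ] at h7
    exact (Affine.Point.some.inj ((eqv h6 hΔ0).injective h7)).1
  obtain ⟨t, ht⟩ := Complex.conj_eq_iff_real.1 hxφ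
  have heq : t ^ 3 + α * t + β = 0 := by
    have h7 := eqn_of hn
    unfold Eqn at h7
    rw [hy0, ht, hα, hβ] at h7
    have h8 : ((0 : ℝ) : ℂ) = ((t ^ 3 + α * t + β : ℝ) : ℂ) := by
      push_cast
      rw [← h7]; ring
    exact (Complex.ofReal_injective h8).symm
  have hpos : 0 < 4 * α + 3 * t ^ 2 := by
    have hb : β = -(t ^ 3 + α * t) := by linarith
    rw [hb] at hdisc
    have h7 : 2 * ((4 * α + 3 * t ^ 2) * (α + 3 * t ^ 2) ^ 2) = -(2 ^ 9 * 3 ^ 12) * δ := by
      rw [← hdisc]; ring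
    by_contra hneg
    rw [not_lt] at hneg
    nlinarith [mul_nonneg (neg_nonneg.2 hneg) (sq_nonneg (α + 3 * t ^ 2))]
  set s : ℝ := Real.sqrt (4 * α + 3 * t ^ 2) with hs
  have hs2 : s ^ 2 = 4 * α + 3 * t ^ 2 := Real.sq_sqrt hpos.le
  have hs0 : 0 < s := Real.sqrt_pos.2 hpos
  let e2 : ℂ := (-(t : ℂ) + s * Complex.I) / 2
  let e3 : ℂ := (-(t : ℂ) - s * Complex.I) / 2
  have hφe : φ e2 = e3 := by
    show (starRingEnd ℂ) ((-(t : ℂ) + s * Complex.I) / 2) = (-(t : ℂ) - s * Complex.I) / 2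
    simp only [map_div₀, map_add, map_neg, map_mul, Complex.conj_ofReal, Complex.conj_I]
    have : (starRingEnd ℂ) (2 : ℂ) = 2 := map_ofNat _ 2
    rw [this]
    ring
  have hsC : (s : ℂ) ^ 2 = 4 * α + 3 * t ^ 2 := by exact_mod_cast congrArg (fun z : ℝ => (z : ℂ)) hs2
  have hI : Complex.I ^ 2 = -1 := Complex.I_sq
  have hroot : e2 ^ 3 + sa V * e2 + sb V = 0 := by
    have hbC : (β : ℂ) = -(t ^ 3 + α * t) := by
      have : β = -(t ^ 3 + α * t) := by linarith
      rw [this]; push_cast; ring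
    have hq : e2 ^ 2 + t * e2 + (t ^ 2 + α) = 0 := by
      show ((-(t : ℂ) + s * Complex.I) / 2) ^ 2 + t * ((-(t : ℂ) + s * Complex.I) / 2) +
        (t ^ 2 + α) = 0
      linear_combination (s ^ 2 / 4 : ℂ) * hI - (1 / 4 : ℂ) * hsC
    rw [hα, hβ, hbC]
    linear_combination (e2 - t) * hq
  have hroot3 : e3 ^ 3 + sa V * e3 + sb V = 0 := by
    have := congrArg φ hroot
    simp only [map_add, map_mul, map_pow, map_zero] at this
    rw [hφe, hsa, hsb] at this
    exact this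
  have hn2 : (CV (sa V) (sb V)).toAffine.Nonsingular e2 0 := by
    rw [nonsingular_iff hD]
    unfold Eqn
    rw [hroot]; norm_num
  have hn3 : (CV (sa V) (sb V)).toAffine.Nonsingular e3 0 := by
    rw [nonsingular_iff hD]
    unfold Eqn
    rw [hroot3]; norm_num
  have hn3' : (CV (sa V) (sb V)).toAffine.Nonsingular (φ e2) (φ 0) := by
    rw [hφe, map_zero]
    exact hn3
  have hn2' : (CV (sa V) (sb V)).toAffine.Nonsingular e2 (-0) := by rw [neg_zero]; exact hn2
  have hne : e3 ≠ e2 := by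
    intro h
    have h7 := congrArg Complex.im h
    have h8 : e3.im = -s / 2 := by
      show ((-(t : ℂ) - s * Complex.I) / 2).im = -s / 2
      simp
    have h9 : e2.im = s / 2 := by
      show ((-(t : ℂ) + s * Complex.I) / 2).im = s / 2
      simp
    rw [h8, h9] at h7
    linarith
  refine ⟨eqv h6 hΔ0 (Affine.Point.some e2 0 hn2), ?_⟩
  rw [eqv_map φ hV h6 h6 hΔ0 hΔ0 hn2 hn3', ec, ← map_sub]
  congr 1
  have h7 : (Affine.Point.some (φ e2) (φ 0) hn3' : (CV (sa V) (sb V)).toAffine.Point) =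
      Affine.Point.some e3 0 hn3 := by
    congr 1
    exact map_zero φ
  have h8 : -(Affine.Point.some e2 0 hn2 : (CV (sa V) (sb V)).toAffine.Point) =
      Affine.Point.some e2 0 hn2 := by
    have := neg_some' hn2 hn2'
    rw [this]
    congr 1
    exact neg_zero
  obtain ⟨h₃, h9⟩ := add_ne hn3 hn2 hne 0 (t : ℂ) 0 (by rw [sub_self, zero_div]) (by
    show (t : ℂ) = 0 ^ 2 - (-(t : ℂ) - s * Complex.I) / 2 - (-(t : ℂ) + s * Complex.I) / 2
    ring) (by ring)
  rw [h7, sub_eq_add_neg, h8]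
  refine Eq.trans ?_ h9.symm
  congr 1

variable {k K : Type} [Field k] [Field K]

/-- a local cocycle over `k` which is trivial over `K` is trivial: infinite places -/
theorem loc_inf {p : ℕ} (hp : p.Prime) (j : K →+* ℂ) {j0 : k →+* ℂ} {V : WeierstrassCurve ℂ}
    (hV : ∀ τ ∈ DD j0, V.map ((τ : ℂ ≃+* ℂ) : ℂ →+* ℂ) = V)
    (hloc : (∀ σ ∈ DD j0, σ ∈ DD j) ∨ p ≠ 2 ∨ (cj ∈ DD j0 → V.Δ.re < 0))
    {c : DD j0 → Pt V}
    (hc : ∀ σ τ, c (σ * τ) = c σ + T _ hV σ (c τ)) (hpc : ∀ σ, p • c σ = 0)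
    {P : Pt V} (hP : ∀ σ : DD j0, (σ : RingAut ℂ) ∈ DD j → c σ = T _ hV σ P - P) :
    ∃ P' : Pt V, ∀ σ, c σ = T _ hV σ P' - P' := by
  rcases hloc with hloc | hloc
  · exact ⟨P, fun σ => hP σ (hloc σ σ.2)⟩
  have hc1 : c 1 = 0 := by
    have := hc 1 1
    rw [one_mul, T_one] at this
    have h2 : c 1 + c 1 - c 1 = c 1 - c 1 := by rw [← this]
    rwa [add_sub_cancel_right, sub_self] at h2
  by_cases hcj : cj ∈ DD j0
  · set σ₀ : DD j0 := ⟨cj, hcj⟩ with hσ₀
    have hσ2 : σ₀ * σ₀ = 1 := by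
      apply Subtype.ext
      ext x
      show (starRingEnd ℂ) ((starRingEnd ℂ) x) = x
      exact Complex.conj_conj x
    have hneg : T _ hV σ₀ (c σ₀) = -c σ₀ := by
      have := hc σ₀ σ₀
      rw [hσ2, hc1] at this
      rw [eq_neg_iff_add_eq_zero, add_comm]
      exact this.symm
    have hall : ∀ σ : DD j0, σ = 1 ∨ σ = σ₀ := by
      intro σ
      rcases iso_complex σ.1 σ.2.1 with h | h
      · exact Or.inl (Subtype.ext h)
      · exact Or.inr (Subtype.ext h)
    suffices h : ∃ P' : Pt V, c σ₀ = T _ hV σ₀ P' - P' by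
      obtain ⟨P', hP'⟩ := h
      refine ⟨P', fun σ => ?_⟩
      rcases hall σ with rfl | rfl
      · rw [hc1, T_one, sub_self]
      · exact hP'
    by_cases hp2 : p = 2
    · subst hp2
      have hΔ := (hloc.resolve_left (fun h => h rfl)) hcj
      have h2 := hpc σ₀
      have h3 : -c σ₀ = c σ₀ := by
        rw [neg_eq_iff_add_eq_zero, ← two_smul ℕ]
        exact h2
      rw [h3] at hneg
      exact h1_real (hV _ hcj) hΔ (c σ₀) h2 hneg
    · obtain ⟨m, hm⟩ := hp.odd_of_ne_two hp2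
      refine ⟨m • c σ₀, ?_⟩
      rw [map_nsmul, hneg]
      have e3 : (2 * m + 1) • c σ₀ = 0 := by rw [← hm]; exact hpc _
      rw [add_smul, one_smul, mul_smul, two_smul] at e3
      have e4 : c σ₀ = -(m • c σ₀ + m • c σ₀) := by
        rw [eq_neg_iff_add_eq_zero, add_comm]
        exact e3
      rw [smul_neg]
      conv_lhs => rw [e4]
      abel
  · refine ⟨0, fun σ => ?_⟩
    rcases iso_complex σ.1 σ.2.1 with h | h
    · have : σ = 1 := Subtype.ext h
      rw [this, hc1, map_zero, sub_zero]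
    · exact absurd (h ▸ σ.2) hcj

end Pool.Agent.P8H4.PK
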