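import Pool.Agent.P8H4.PK.Res
import Pool.Agent.P8H4.PL.Loc

/-!
# Local cocycles at the finite places
-/

set_option autoImplicit false

open NumberField IsDedekindDomain

namespace Pool.Agent.P8H4.PK

open Pool.Agent.TH841.NF (pid mem_pid pls lf mem_lf norm_int norm_le_one_of_val)
open Pool.Agent.P8H4.PL (relindex unr_set Ram)
open Pool.Agent.P8H4.PL (Gr.locA Gr.locB Gr.fixN)
open Pool.Agent.P8H4.PL.Fr (Gq norm_eqv)

variable {q : ℕ} [Fact q.Prime]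
variable {k K : Type} [Field k] [NumberField k] [Field K] [NumberField K] [Algebra k K]

omit [NumberField k] [NumberField K] in
lemma DD_le {C : Type} [NormedField C] (j : K →+* C) : DD j ≤ DD (j.comp (algebraMap k K)) :=
  fun _ hτ => ⟨hτ.1, fun _ => hτ.2 _⟩

variable (k) in
/-- a local cocycle over `k` which is trivial over `K` is trivial -/
theorem loc_triv [IsGalois k K] {p n : ℕ} (hp : p.Prime)
    (hn : Module.finrank k K = p ^ n) (W : WeierstrassCurve (𝓞 k))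
    (j : K →+* PadicAlgCl q) {j0 : k →+* PadicAlgCl q} (hj0 : j.comp (algebraMap k K) = j0)
    {V : WeierstrassCurve (PadicAlgCl q)} (hW : W.map (j0.comp (algebraMap (𝓞 k) k)) = V)
    (hV : ∀ τ ∈ DD j0,
      V.map ((τ : PadicAlgCl q ≃+* PadicAlgCl q) : PadicAlgCl q →+* PadicAlgCl q) = V)
    (hloc : (∀ σ ∈ DD j0, σ ∈ DD j) ∨
      (6 * p * W.Δ ∉ (pls j0).asIdeal ∧
        (Ram k (pls j) → ¬ p ∣ pts (redAt W (pls j0)) + 1)))
    {c : DD j0 → Pt V}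
    (hc : ∀ σ τ, c (σ * τ) = c σ + T _ hV σ (c τ)) (hpc : ∀ σ, p • c σ = 0)
    {P : Pt V} (hP : ∀ σ : DD j0, (σ : RingAut (PadicAlgCl q)) ∈ DD j → c σ = T _ hV σ P - P) :
    ∃ P' : Pt V, ∀ σ, c σ = T _ hV σ P' - P' := by
  rcases hloc with hloc | ⟨hgood, hram⟩
  · exact ⟨P, fun σ => hP σ (hloc σ σ.2)⟩
  -- good reduction
  have hnorm : ∀ z : 𝓞 k, z ∉ (pls j0).asIdeal → ‖j0 (algebraMap (𝓞 k) k z)‖ = 1 := by
    intro z hz
    refine le_antisymm (norm_int j0 z) ?_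
    have : z ∉ pid j0 := hz
    rw [mem_pid, not_lt] at this
    exact this
  have hprime : (pls j0).asIdeal.IsPrime := (pls j0).isPrime
  have h6p : (6 * p : 𝓞 k) ∉ (pls j0).asIdeal := fun h => hgood (Ideal.mul_mem_right _ _ h)
  have hΔn : W.Δ ∉ (pls j0).asIdeal := fun h => hgood (Ideal.mul_mem_left _ _ h)
  have h6n : (6 : 𝓞 k) ∉ (pls j0).asIdeal := fun h => h6p (Ideal.mul_mem_right _ _ h)
  have hpn' : (p : 𝓞 k) ∉ (pls j0).asIdeal := fun h => h6p (Ideal.mul_mem_left _ _ h)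
  have h6 : ‖(6 : PadicAlgCl q)‖ = 1 := by
    have := hnorm _ h6n
    rwa [map_ofNat, map_ofNat] at this
  have hpn : ‖(p : PadicAlgCl q)‖ = 1 := by
    have := hnorm _ hpn'
    rwa [map_natCast, map_natCast] at this
  have hVΔ : V.Δ = j0 (algebraMap (𝓞 k) k W.Δ) := by
    rw [← hW]
    exact WeierstrassCurve.map_Δ (W := W) _
  have hGd : Gd V := by
    refine ⟨h6, ?_, ?_, ?_, ?_, ?_, ?_⟩
    · rw [← hW]; exact norm_int j0 _
    · rw [← hW]; exact norm_int j0 _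
    · rw [← hW]; exact norm_int j0 _
    · rw [← hW]; exact norm_int j0 _
    · rw [← hW]; exact norm_int j0 _
    · rw [hVΔ]; exact hnorm _ hΔn
  have hVΔ0 : V.Δ ≠ 0 := ne_of_norm hGd.hΔ
  obtain ⟨R⟩ := exists_rd hGd
  have hI : ∀ τ ∈ DD j0, ∀ x, ‖τ x‖ = ‖x‖ := iso_DD j0
  have hinv := R.hinv _ hV hI
  have hinj := R.hinj hGd hp hpn
  have tfin : {a : Pt V | p • a = 0}.Finite := tor_fin hVΔ0 hp.one_le
  have hdiv : ∀ a : Pt V, ∃ b, p • b = a := exists_div hVΔ0 hp.one_le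
  let N : Subgroup (DD j0) := (DD j).subgroupOf (DD j0)
  have hN : ∀ τ : DD j0, τ ∈ N ↔ (τ : RingAut (PadicAlgCl q)) ∈ DD j := fun τ =>
    Subgroup.mem_subgroupOf
  have hjx : ∀ (g : DD j0) (x : k), g.1 (j (algebraMap k K x)) = j (algebraMap k K x) := by
    intro g x
    have h1 : j (algebraMap k K x) = j0 x := DFunLike.congr_fun hj0 x
    rw [h1]
    exact g.2.2 x
  obtain ⟨hND, hnor, m, hm⟩ := relindex (k := k) hp hn (DD j0).subtype j
    (⊤ : Subgroup (DD j0)) N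
    (fun g => ⟨fun _ x => hjx g x, fun _ => trivial⟩)
    (fun g => ⟨fun h => ((hN g).1 h).2, fun h => (hN g).2 ⟨g.2.1, h⟩⟩)
  have hc' : ∀ σ ∈ (⊤ : Subgroup (DD j0)), ∀ τ ∈ (⊤ : Subgroup (DD j0)),
      c (σ * τ) = c σ + T _ hV σ (c τ) := fun σ _ τ _ => hc σ τ
  have hpc' : ∀ σ ∈ (⊤ : Subgroup (DD j0)), p • c σ = 0 := fun σ _ => hpc σ
  have hP' : ∀ σ ∈ N, c σ = T _ hV σ P - P := fun σ hσ => hP σ ((hN σ).1 hσ)
  suffices h : ∃ P' : Pt V, ∀ σ ∈ (⊤ : Subgroup (DD j0)), c σ = T _ hV σ P' - P' by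
    obtain ⟨P', h⟩ := h
    exact ⟨P', fun σ => h σ trivial⟩
  by_cases hR : Ram k (pls j)
  · refine Pool.Agent.P8H4.PL.Gr.locB (T _ hV) (T_one _ hV) (T_mul _ hV) R.red hinj _ N hND hnor hc'
      hpc' hP' ?_ ?_ tfin
    · intro X
      obtain ⟨φ, hφ, h1⟩ := R.frobP _ hV hI frob N X ∅ (by simp)
      refine ⟨φ, hφ, fun τ hτ => ?_⟩
      obtain ⟨n, hn, -⟩ := h1 τ hτ
      exact ⟨n, hn⟩
    · apply Pool.Agent.P8H4.PL.Gr.fixN (T _ hV) (T_one _ hV) (T_mul _ hV) hp _ N hND hnor hm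
      intro a ha hfix
      exact tor_res j0 _ hV le_rfl hW R hGd hp hpn (hram hR) a ha fun τ _ => hfix τ trivial
  · obtain ⟨S, hS1, hS2⟩ := unr_set (k := k) j hR
    refine Pool.Agent.P8H4.PL.Gr.locA (T _ hV) (T_one _ hV) (T_mul _ hV) R.red hinv hinj hp _ N hND
      hc' hpc' hP' ?_ ?_ tfin hdiv
    · intro X
      obtain ⟨φ, hφ, h1⟩ := R.frobP _ hV hI frob ⊤ X S hS1
      refine ⟨φ, hφ, fun τ hτ => ?_⟩
      obtain ⟨n, hn, h2⟩ := h1 τ hτ
      refine ⟨n, hn, ?_⟩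
      have hiso : ∀ x, ‖((φ ^ n)⁻¹ * τ : DD j0).1 x‖ = ‖x‖ := ((φ ^ n)⁻¹ * τ : DD j0).2.1
      obtain ⟨ρ, hρ⟩ := exists_gq _ hiso
      rw [hN]
      refine ⟨hiso, ?_⟩
      have h3 : ρ ∈ Pool.Agent.P8H4.PL.Dj j := by
        apply hS2
        · intro x
          have h4 : toR ρ (j (algebraMap k K x)) = j (algebraMap k K x) := by
            rw [hρ]
            exact hjx _ x
          exact h4
        · intro x hx
          have h4 : ρ x = ((φ ^ n)⁻¹ * τ : DD j0).1 x := by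
            rw [← hρ]; rfl
          have h5 : ((φ ^ n)⁻¹ * τ : DD j0).1 x - x =
              ((φ ^ n)⁻¹ : DD j0).1 ((τ : RingAut (PadicAlgCl q)) x -
                ((φ : RingAut (PadicAlgCl q)) ^ n) x) := by
            rw [map_sub]
            show ((φ ^ n)⁻¹ : DD j0).1 (τ.1 x) - x = ((φ ^ n)⁻¹ : DD j0).1 (τ.1 x) -
              ((φ ^ n)⁻¹ : DD j0).1 ((φ ^ n : DD j0).1 x)
            have : ((φ ^ n)⁻¹ : DD j0).1 ((φ ^ n : DD j0).1 x) = x :=
              RingEquiv.symm_apply_apply ((φ ^ n : DD j0).1) x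
            rw [this]
          rw [h4, h5, ((φ ^ n)⁻¹ : DD j0).2.1]
          exact h2 x hx
      intro x
      have h6 := h3 x
      have h7 : (toR ρ) (j x) = j x := h6
      rw [hρ] at h7
      exact h7
    · refine (fin_tor j0 _ hV le_rfl R hGd hp hpn).subset ?_
      rintro a ⟨h1, h2⟩
      exact ⟨fun τ _ => h1 τ trivial, h2⟩

end Pool.Agent.P8H4.PK
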