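import Pool.Agent.P8H4.PK.Bas
import Pool.Agent.H64R2.DD_MWK

/-!
# The theorem of Mordell and Weil for elliptic curves over number fields
-/

set_option autoImplicit false

open WeierstrassCurve Polynomial

namespace Pool.Agent.P8H4.PK

open Pool.Agent.H901R3.MS (CV Disc Eqn)
open Pool.Agent.H64R2.DDMWK (fg_of_eq fg_of_inj)

open scoped Classical in
theorem mw_short {K : Type} [Field K] [NumberField K] (a b : K)
    (hab : 4 * a ^ 3 + 27 * b ^ 2 ≠ 0) : AddGroup.FG (CV a b).toAffine.Point := by
  let P : Cubic K := ⟨1, 0, a, b⟩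
  let L : Type := P.toPoly.SplittingField
  have : NumberField L := NumberField.of_module_finite K L
  have ha : P.a ≠ 0 := one_ne_zero
  have hsp : Splits (P.toPoly.map (algebraMap K L)) := SplittingField.splits P.toPoly
  obtain ⟨x, y, z, h3⟩ := (Cubic.splits_iff_roots_eq_three ha).1 hsp
  have hdisc : P.discr ≠ 0 := by
    have h : P.discr = -(4 * a ^ 3 + 27 * b ^ 2) := by
      simp only [Cubic.discr, P]
      ring
    rw [h, neg_ne_zero]
    exact hab
  obtain ⟨hxy, hxz, hyz⟩ := (Cubic.discr_ne_zero_iff_roots_ne ha h3).1 hdisc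
  have hb := Cubic.b_eq_three_roots ha h3
  have hc := Cubic.c_eq_three_roots ha h3
  have hd := Cubic.d_eq_three_roots ha h3
  simp only [P, map_one, map_zero, one_mul] at hb hc hd
  have hK : AddGroup.FG (Pool.Agent.H437R2.Man.MW.crv (-x) (-y) (-z)).toAffine.Point :=
    Pool.Agent.H437R2.Man.MW.pt_fg (fun h => hxy (neg_injective h)) (fun h => hxz (neg_injective h))
      (fun h => hyz (neg_injective h))
  have heq : (Pool.Agent.H437R2.Man.MW.crv (-x) (-y) (-z)).toAffine =
      ((CV a b).baseChange L) := by
    apply WeierstrassCurve.ext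
    · change (0 : L) = algebraMap K L 0
      rw [map_zero]
    · change -x + -y + -z = algebraMap K L 0
      rw [map_zero]
      linear_combination -hb
    · change (0 : L) = algebraMap K L 0
      rw [map_zero]
    · change -x * -y + -x * -z + -y * -z = algebraMap K L a
      linear_combination -hc
    · change -x * -y * -z = algebraMap K L b
      linear_combination -hd
  have hK' : AddGroup.FG ((CV a b).baseChange L).toAffine.Point := fg_of_eq heq hK
  have hinj := WeierstrassCurve.Affine.Point.map_injective (W' := CV a b)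
    (Algebra.ofId K L)
  exact fg_of_inj _ hinj hK'

open scoped Classical in
/-- **Mordell-Weil** -/
theorem mw {K : Type} [Field K] [NumberField K] {E : WeierstrassCurve K} (hE : E.Δ ≠ 0) :
    AddGroup.FG (Pt E) := by
  have h6 : (6 : K) ≠ 0 := by norm_num
  have h1 := mw_short (sa E) (sb E) (fun h => disc h6 hE (by rw [h, mul_zero]))
  exact fg_of_inj ((eqv h6 hE).symm : Pt E →+ _) (eqv h6 hE).symm.injective h1

end Pool.Agent.P8H4.PK
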