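import Pool.Agent.P8H4.PK.Bas
import Pool.Agent.N890.US.UNR
import Pool.Agent.N890.US.NTOR

/-!
# Reduction of points over an ultrametric field, residue characteristic prime to `6`
-/

set_option autoImplicit false

open WeierstrassCurve

namespace Pool.Agent.P8H4.PK

open Pool.Agent.Y700 (VR nonsing)
open Pool.Agent.H901R3.MS Pool.Agent.TH942 Pool.Agent.TH954
open Pool.Agent.N890.US.UNR (exists_place)

variable {C : Type} [NormedField C] [IsUltrametricDist C]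

/-- the equation is integral, its discriminant is a unit, and the residue characteristic is prime
to six -/
structure Gd (V : WeierstrassCurve C) : Prop where
  h6 : ‖(6 : C)‖ = 1
  a₁ : ‖V.a₁‖ ≤ 1
  a₂ : ‖V.a₂‖ ≤ 1
  a₃ : ‖V.a₃‖ ≤ 1
  a₄ : ‖V.a₄‖ ≤ 1
  a₆ : ‖V.a₆‖ ≤ 1
  hΔ : ‖V.Δ‖ = 1

/-- the data of the reduction -/
structure Rd (V : WeierstrassCurve C) where
  /-- the residue field -/
  k : Type
  /-- it is a field -/
  fk : Field k
  /-- the place -/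
  v : Place C k
  memA : ∀ x, x ∈ v.A ↔ ‖x‖ ≤ 1
  r0 : ∀ x, ‖x‖ ≤ 1 → (v.r x = 0 ↔ ‖x‖ < 1)
  /-- the reduced equation -/
  Vk : WeierstrassCurve k
  /-- the equation over the valuation ring -/
  V0 : WeierstrassCurve v.A
  hV0 : V0.map v.A.subtype = V
  hVk : V0.map v.ρ = Vk
  /-- the reduction -/
  red : Pt V →+ Pt Vk
  red_far : ∀ x y (h : V.toAffine.Nonsingular x y), 1 < ‖x‖ → red (pt h) = 0
  red_near : ∀ x y (h : V.toAffine.Nonsingular x y), ‖x‖ ≤ 1 →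
    ‖y‖ ≤ 1 ∧ ∃ h' : Vk.toAffine.Nonsingular (v.r x) (v.r y), red (pt h) = pt h'

omit [IsUltrametricDist C] in
lemma ne_of_norm {x : C} (h : ‖x‖ = 1) : x ≠ 0 := by
  intro h0
  rw [h0, norm_zero] at h
  exact zero_ne_one h

open scoped Classical in
theorem exists_rd {V : WeierstrassCurve C} (hV : Gd V) : Nonempty (Rd V) := by
  obtain ⟨k, fk, v, hA, hr⟩ := exists_place C
  have hrr : ∀ x : C, ‖x‖ ≤ 1 → (v.r x = 0 ↔ ‖x‖ < 1) := fun x hx => by
    rw [v.r_of ((hA x).2 hx)]; exact hr x _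
  have hrz : ∀ z : v.A, v.r (z : C) = v.ρ z := fun z => v.r_of z.2
  have h6C : (6 : C) ≠ 0 := ne_of_norm hV.h6
  have hΔC : V.Δ ≠ 0 := ne_of_norm hV.hΔ
  let V0 : WeierstrassCurve v.A := ⟨⟨V.a₁, (hA _).2 hV.a₁⟩, ⟨V.a₂, (hA _).2 hV.a₂⟩,
    ⟨V.a₃, (hA _).2 hV.a₃⟩, ⟨V.a₄, (hA _).2 hV.a₄⟩, ⟨V.a₆, (hA _).2 hV.a₆⟩⟩
  have hV0 : V0.map v.A.subtype = V := rfl
  let Vk : WeierstrassCurve k := V0.map v.ρ
  have hVk : V0.map v.ρ = Vk := rfl
  let u : v.A := ⟨1 / 6, (hA _).2 (by rw [norm_div, norm_one, hV.h6, div_one])⟩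
  have hu : (6 : v.A) * u = 1 := by
    apply Subtype.ext
    show (6 : C) * (1 / 6) = 1
    exact mul_one_div_cancel h6C
  have hρu : (6 : k) * v.ρ u = 1 := by
    have := congrArg v.ρ hu
    rw [map_mul, map_ofNat, map_one] at this
    exact this
  have h6k : (6 : k) ≠ 0 := by
    intro h0
    rw [h0, zero_mul] at hρu
    exact zero_ne_one hρu
  have e6 : v.ρ u = 1 / 6 := by
    rw [eq_div_iff h6k, mul_comm]; exact hρu
  have hΔ0 : ((V0.Δ : v.A) : C) = V.Δ := (WeierstrassCurve.map_Δ (W := V0) v.A.subtype).symm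
  have hΔk : Vk.Δ ≠ 0 := by
    have h1 : Vk.Δ = v.ρ V0.Δ := WeierstrassCurve.map_Δ (W := V0) v.ρ
    rw [h1, ← hrz, hΔ0]
    intro h0
    have h2 := (hrr _ hV.hΔ.le).1 h0
    rw [hV.hΔ] at h2
    exact lt_irrefl _ h2
  have haC : sa V = ((-27 * V0.c₄ : v.A) : C) := by
    have h1 : V.c₄ = (V0.c₄ : C) := WeierstrassCurve.map_c₄ (W := V0) v.A.subtype
    unfold sa
    rw [h1]
    push_cast
    rfl
  have hbC : sb V = ((-54 * V0.c₆ : v.A) : C) := by
    have h1 : V.c₆ = (V0.c₆ : C) := WeierstrassCurve.map_c₆ (W := V0) v.A.subtype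
    unfold sb
    rw [h1]
    push_cast
    rfl
  have ha : v.r (sa V) = sa Vk := by
    have h1 : Vk.c₄ = v.ρ V0.c₄ := WeierstrassCurve.map_c₄ (W := V0) v.ρ
    rw [haC, hrz, sa, h1, map_mul, map_neg, map_ofNat]
  have hb : v.r (sb V) = sb Vk := by
    have h1 : Vk.c₆ = v.ρ V0.c₆ := WeierstrassCurve.map_c₆ (W := V0) v.ρ
    rw [hbC, hrz, sb, h1, map_mul, map_neg, map_ofNat]
  have haA : sa V ∈ v.A := by rw [haC]; exact Subtype.property _
  have hbA : sb V ∈ v.A := by rw [hbC]; exact Subtype.property _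
  have hD : Disc (v.r (sa V)) (v.r (sb V)) := by
    rw [ha, hb]
    exact disc h6k hΔk
  obtain ⟨red0, -, h1, h2⟩ := t_R6K t_R1K t_R2K t_R3K t_R4K t_R5K C k v _ _ haA hbA hD
  have key : ∀ a' b' : k, v.r (sa V) = a' → v.r (sb V) = b' →
      ∃ red1 : (CV (sa V) (sb V)).toAffine.Point →+ (CV a' b').toAffine.Point,
      (∀ x y (h : (CV (sa V) (sb V)).toAffine.Nonsingular x y),
        x ∉ v.A → red1 (Affine.Point.some x y h) = Affine.Point.zero) ∧
      (∀ x y (h : (CV (sa V) (sb V)).toAffine.Nonsingular x y),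
        x ∈ v.A → y ∈ v.A ∧ ∃ g : (CV a' b').toAffine.Nonsingular (v.r x) (v.r y),
          red1 (Affine.Point.some x y h) = Affine.Point.some _ _ g) := by
    rintro _ _ rfl rfl
    exact ⟨red0, h1, h2⟩
  obtain ⟨red1, k1, k2⟩ := key _ _ ha hb
  -- the coefficients of the transformation
  let r₁ : v.A := -(3 * u ^ 2 * V0.b₂)
  let s₁ : v.A := -(3 * u * V0.a₁)
  let t₁ : v.A := 9 * u ^ 3 * V0.a₁ * V0.b₂ - 3 * u * V0.a₃
  have hbb : V.b₂ = (V0.b₂ : C) := WeierstrassCurve.map_b₂ (W := V0) v.A.subtype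
  have hbk : Vk.b₂ = v.ρ V0.b₂ := WeierstrassCurve.map_b₂ (W := V0) v.ρ
  have h2C : (2 : C) ≠ 0 := two_ne h6C
  have h3C : (3 : C) ≠ 0 := three_ne h6C
  have h2k : (2 : k) ≠ 0 := two_ne h6k
  have h3k : (3 : k) ≠ 0 := three_ne h6k
  have f12 : (12 : C) = 2 ^ 2 * 3 := by norm_num
  have f24 : (24 : C) = 2 ^ 3 * 3 := by norm_num
  have f6 : (6 : C) = 2 * 3 := by norm_num
  have g12 : (12 : k) = 2 ^ 2 * 3 := by norm_num
  have g24 : (24 : k) = 2 ^ 3 * 3 := by norm_num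
  have g6 : (6 : k) = 2 * 3 := by norm_num
  have er : -V.b₂ / 12 = ((r₁ : v.A) : C) := by
    show _ = -(3 * (1 / 6) ^ 2 * (V0.b₂ : C))
    rw [hbb, f12, f6]
    field_simp
  have es : -V.a₁ / 2 = ((s₁ : v.A) : C) := by
    show _ = -(3 * (1 / 6) * V.a₁)
    rw [f6]
    field_simp
  have et : V.a₁ * V.b₂ / 24 - V.a₃ / 2 = ((t₁ : v.A) : C) := by
    show _ = 9 * (1 / 6) ^ 3 * V.a₁ * (V0.b₂ : C) - 3 * (1 / 6) * V.a₃
    rw [hbb, f24, f6]
    field_simp
    ring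
  have er' : -Vk.b₂ / 12 = v.ρ r₁ := by
    show _ = v.ρ (-(3 * u ^ 2 * V0.b₂))
    rw [map_neg, map_mul, map_mul, map_pow, map_ofNat, e6, hbk, g12, g6]
    field_simp
  have es' : -Vk.a₁ / 2 = v.ρ s₁ := by
    show _ = v.ρ (-(3 * u * V0.a₁))
    rw [map_neg, map_mul, map_mul, map_ofNat, e6, g6]
    show -(v.ρ V0.a₁) / 2 = _
    field_simp
  have et' : Vk.a₁ * Vk.b₂ / 24 - Vk.a₃ / 2 = v.ρ t₁ := by
    show _ = v.ρ (9 * u ^ 3 * V0.a₁ * V0.b₂ - 3 * u * V0.a₃)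
    rw [map_sub, map_mul, map_mul, map_mul, map_mul, map_mul, map_pow, map_ofNat, map_ofNat, e6, hbk,
      g24, g6]
    show v.ρ V0.a₁ * _ / _ - v.ρ V0.a₃ / 2 = _
    field_simp
    ring
  have hX : ∀ z : v.A, (1 / 6) ^ 2 * (z : C) + -V.b₂ / 12 = ((u ^ 2 * z + r₁ : v.A) : C) := by
    intro z
    rw [er]
    rfl
  have hX' : ∀ x : C, ((1 / 6) ^ 2 * x + -V.b₂ / 12) ∈ v.A → x ∈ v.A := by
    intro x hx
    have e : (6 : C) ^ 2 * ((1 / 6) ^ 2 * x + -V.b₂ / 12 - (r₁ : C)) = x := by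
      rw [er]
      field_simp
      ring
    rw [← e]
    exact v.A.mul_mem (v.A.pow_mem (by exact_mod_cast v.nat_mem 6) 2) (v.A.sub_mem hx r₁.2)
  have hY : ∀ z w : v.A, (1 / 6) ^ 3 * (w : C) + (1 / 6) ^ 2 * (-V.a₁ / 2) * (z : C) +
      (V.a₁ * V.b₂ / 24 - V.a₃ / 2) = ((u ^ 3 * w + u ^ 2 * s₁ * z + t₁ : v.A) : C) := by
    intro z w
    rw [es, et]
    rfl
  let EQ := eqv (V := V) h6C hΔC
  let EK := eqv (V := Vk) h6k hΔk
  let red : Pt V →+ Pt Vk :=
    (EK : _ →+ _).comp (red1.comp (EQ.symm : _ →+ _))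
  have hcase := fun X Y => eqv_symm_pt (V := V) h6C hΔC (X := X) (Y := Y)
  refine ⟨⟨k, fk, v, hA, hrr, Vk, V0, hV0, hVk, red, ?_, ?_⟩⟩
  · intro X Y H hX1
    obtain ⟨x, y, h, e, eX, eY⟩ := hcase X Y H
    have h0 : red1 (Affine.Point.some x y h) = Affine.Point.zero → red (pt H) = 0 := fun h0 =>
      (congrArg (fun z => EK (red1 z)) e).trans ((congrArg EK h0).trans (map_zero EK))
    apply h0
    apply k1 x y h
    intro hx
    have h3 := hX ⟨x, hx⟩
    have h4 : X ∈ v.A := by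
      rw [eX]
      show (1 / 6) ^ 2 * ((⟨x, hx⟩ : v.A) : C) + -V.b₂ / 12 ∈ v.A
      rw [h3]
      exact Subtype.property _
    rw [hA] at h4
    linarith
  · intro X Y H hX1
    obtain ⟨x, y, h, e, eX, eY⟩ := hcase X Y H
    have hxA : x ∈ v.A := by
      apply hX'
      rw [← eX, hA]
      exact hX1
    obtain ⟨hyA, g, e3⟩ := k2 x y h hxA
    have hXe : X = ((u ^ 2 * ⟨x, hxA⟩ + r₁ : v.A) : C) := eX.trans (hX ⟨x, hxA⟩)
    have hYe : Y = ((u ^ 3 * ⟨y, hyA⟩ + u ^ 2 * s₁ * ⟨x, hxA⟩ + t₁ : v.A) : C) :=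
      eY.trans (hY ⟨x, hxA⟩ ⟨y, hyA⟩)
    refine ⟨?_, ?_⟩
    · rw [← hA, hYe]
      exact Subtype.property _
    · have h5 := (congrArg (fun z => EK (red1 z)) e).trans ((congrArg EK e3).trans
        (eqv_some (V := Vk) h6k hΔk g))
      have hxx : v.r X = (1 / 6) ^ 2 * v.r x + -Vk.b₂ / 12 := by
        rw [hXe, hrz, er', map_add, map_mul, map_pow, e6, v.r_of hxA]
      have hyy : v.r Y = (1 / 6) ^ 3 * v.r y + (1 / 6) ^ 2 * (-Vk.a₁ / 2) * v.r x +
          (Vk.a₁ * Vk.b₂ / 24 - Vk.a₃ / 2) := by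
        rw [hYe, hrz, es', et', map_add, map_add, map_mul, map_mul, map_mul, map_pow, map_pow, e6,
          v.r_of hxA, v.r_of hyA]
      refine ⟨?_, ?_⟩
      · rw [hxx, hyy]
        exact nonsing ((vr Vk h6k).delta_ne (short_delta h6k hΔk)) ((vr Vk h6k).eqn.2 g.1)
      · exact h5.trans (pt_congr _ _ hxx.symm hyy.symm)

attribute [instance] Rd.fk

section tor

variable {V : WeierstrassCurve C}

lemma norm_two (h6 : ‖(6 : C)‖ = 1) : ‖(2 : C)‖ = 1 := by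
  have h2 : ‖(2 : C)‖ ≤ 1 := by exact_mod_cast IsUltrametricDist.norm_natCast_le_one C 2
  have h3 : ‖(3 : C)‖ ≤ 1 := by exact_mod_cast IsUltrametricDist.norm_natCast_le_one C 3
  have e : (6 : C) = 2 * 3 := by norm_num
  rw [e, norm_mul] at h6
  nlinarith [norm_nonneg (2 : C), norm_nonneg (3 : C)]

lemma norm_three (h6 : ‖(6 : C)‖ = 1) : ‖(3 : C)‖ = 1 := by
  have e : (6 : C) = 2 * 3 := by norm_num
  have h := h6
  rw [e, norm_mul, norm_two h6, one_mul] at h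
  exact h

lemma Gd.b₂ (hV : Gd V) : ‖V.b₂‖ ≤ 1 := by
  unfold WeierstrassCurve.b₂
  refine (IsUltrametricDist.norm_add_le_max _ _).trans (max_le ?_ ?_)
  · rw [norm_pow]
    exact pow_le_one₀ (norm_nonneg _) hV.a₁
  · rw [norm_mul]
    have h4 : ‖(4 : C)‖ ≤ 1 := by exact_mod_cast IsUltrametricDist.norm_natCast_le_one C 4
    exact mul_le_one₀ h4 (norm_nonneg _) hV.a₂

lemma Gd.sab (hV : Gd V) : ‖sa V‖ ≤ 1 ∧ ‖sb V‖ ≤ 1 := by
  obtain ⟨R⟩ := exists_rd hV
  have h1 : V.c₄ = (R.V0.c₄ : C) := by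
    have := WeierstrassCurve.map_c₄ (W := R.V0) R.v.A.subtype
    rw [R.hV0] at this
    exact this
  have h2 : V.c₆ = (R.V0.c₆ : C) := by
    have := WeierstrassCurve.map_c₆ (W := R.V0) R.v.A.subtype
    rw [R.hV0] at this
    exact this
  have h3 : ‖V.c₄‖ ≤ 1 := by rw [h1, ← R.memA]; exact Subtype.property _
  have h4 : ‖V.c₆‖ ≤ 1 := by rw [h2, ← R.memA]; exact Subtype.property _
  have h5 : ‖(27 : C)‖ ≤ 1 := by exact_mod_cast IsUltrametricDist.norm_natCast_le_one C 27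
  have h6 : ‖(54 : C)‖ ≤ 1 := by exact_mod_cast IsUltrametricDist.norm_natCast_le_one C 54
  unfold sa sb
  rw [norm_mul, norm_mul, norm_neg, norm_neg]
  exact ⟨mul_le_one₀ h5 (norm_nonneg _) h3, mul_le_one₀ h6 (norm_nonneg _) h4⟩

open scoped Classical in
/-- torsion prime to the residue characteristic is integral -/
lemma tor_int (hV : Gd V) {p : ℕ} (hp : p.Prime) (hpn : ‖(p : C)‖ = 1) {x y : C}
    (h : V.toAffine.Nonsingular x y) (hT : p • pt h = 0) : ‖x‖ ≤ 1 := by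
  have h6C : (6 : C) ≠ 0 := ne_of_norm hV.h6
  have hΔC : V.Δ ≠ 0 := ne_of_norm hV.hΔ
  have hsi : SI (L := C) (CV (sa V) (sb V)) :=
    { h1 := rfl, h2 := rfl, h3 := rfl, ha := hV.sab.1, hb := hV.sab.2 }
  obtain ⟨x', y', h', e, e1, -⟩ := eqv_symm_pt (V := V) h6C hΔC h
  have h5 : p • (Affine.Point.some x' y' h' : (CV (sa V) (sb V)).toAffine.Point) = 0 := by
    rw [← e, ← map_nsmul, hT, map_zero]
  have h6' : ‖x'‖ ≤ 1 := by
    rcases hp.two_le.eq_or_lt with h2 | h2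
    · -- points of order two
      subst h2
      have h7 : (Affine.Point.some x' y' h' : (CV (sa V) (sb V)).toAffine.Point) =
          -Affine.Point.some x' y' h' := by
        rw [two_smul] at h5
        exact eq_neg_of_add_eq_zero_left h5
      rw [Affine.Point.neg_some] at h7
      have h8 := (Affine.Point.some.inj h7).2
      have h10 : (CV (sa V) (sb V)).toAffine.negY x' y' = -y' := by
        simp only [Affine.negY, CV]
        ring
      have h9 : y' = -y' := h8.trans h10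
      have h2C : (2 : C) ≠ 0 := two_ne h6C
      have hy0 : y' = 0 := by
        have : 2 * y' = 0 := by linear_combination h9
        exact (mul_eq_zero.1 this).resolve_left h2C
      have heq : Eqn (sa V) (sb V) x' y' := equation_iff.1 h'.1
      unfold Eqn at heq
      rw [hy0] at heq
      by_contra hx
      rw [not_le] at hx
      have e3 : x' ^ 3 = -(sa V * x' + sb V) := by linear_combination -heq
      have e4 := congrArg norm e3
      rw [norm_pow, norm_neg] at e4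
      have e5 : ‖sa V * x' + sb V‖ ≤ ‖x'‖ := by
        refine (IsUltrametricDist.norm_add_le_max _ _).trans (max_le ?_ (hV.sab.2.trans hx.le))
        rw [norm_mul]
        exact mul_le_of_le_one_left (norm_nonneg _) hV.sab.1
      rw [← e4] at e5
      nlinarith [mul_pos (sub_pos.2 hx) (lt_trans zero_lt_one hx), sq_nonneg (‖x'‖ - 1)]
    · exact Pool.Agent.N890.US.NTOR.t_NTOR C _ hsi (norm_two hV.h6) p hp h2 hpn x' y' h' h5
  rw [e1]
  have hn12 : ‖(12 : C)‖ = 1 := by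
    have : (12 : C) = 2 * 2 * 3 := by norm_num
    rw [this, norm_mul, norm_mul, norm_two hV.h6, norm_three hV.h6]; norm_num
  refine (IsUltrametricDist.norm_add_le_max _ _).trans (max_le ?_ ?_)
  · rw [norm_mul, norm_pow, norm_div, norm_one, hV.h6]
    simpa using h6'
  · rw [norm_div, norm_neg, hn12, div_one]
    exact hV.b₂

end tor

end Pool.Agent.P8H4.PK
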