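import Pool.Agent.P8H4.PK.Red
import Pool.Agent.P8H4.PL.Res

/-!
# Properties of the reduction
-/

set_option autoImplicit false

open WeierstrassCurve

namespace Pool.Agent.P8H4.PK

open Pool.Agent.H901R3.MS Pool.Agent.TH942 Pool.Agent.TH954
open Pool.Agent.P8H4.PL.Fr (Gq)

section act

variable {C : Type} [Field C] {V : WeierstrassCurve C} (G : Subgroup (RingAut C))
  (hG : ∀ τ ∈ G, V.map ((τ : C ≃+* C) : C →+* C) = V)

/-- the action on the points -/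
noncomputable def T (τ : G) : Pt V →+ Pt V := mp (((τ : RingAut C) : C ≃+* C) : C →+* C) (hG τ τ.2)

lemma T_one (P : Pt V) : T G hG 1 P = P := by
  rcases P with _ | ⟨x, y, h⟩
  · rfl
  · rfl

lemma T_mul (σ τ : G) (P : Pt V) : T G hG (σ * τ) P = T G hG σ (T G hG τ P) := by
  rcases P with _ | ⟨x, y, h⟩
  · rfl
  · rfl

lemma T_pt (τ : G) {x y : C} (h : V.toAffine.Nonsingular x y) :
    T G hG τ (pt h) = pt (ns_map (hG τ τ.2) h) := rfl

end act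

section frob

variable {q : ℕ} [Fact q.Prime]

/-- the Galois group as a group of automorphisms of the ring -/
noncomputable def toR : Gq q →* RingAut (PadicAlgCl q) where
  toFun τ := (τ : PadicAlgCl q ≃+* PadicAlgCl q)
  map_one' := rfl
  map_mul' _ _ := rfl

/-- isometric automorphisms fix the rational `q`-adic numbers -/
lemma fix_pad (τ : RingAut (PadicAlgCl q)) (hτ : ∀ x, ‖τ x‖ = ‖x‖) (z : ℚ_[q]) :
    τ (algebraMap ℚ_[q] (PadicAlgCl q) z) = algebraMap ℚ_[q] (PadicAlgCl q) z := by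
  rw [← sub_eq_zero, ← norm_le_zero_iff]
  refine le_of_forall_pos_le_add fun ε hε => ?_
  obtain ⟨r, hr⟩ := Padic.rat_dense q z hε
  have e : τ (algebraMap ℚ_[q] (PadicAlgCl q) z) - algebraMap ℚ_[q] (PadicAlgCl q) z =
      τ (algebraMap ℚ_[q] (PadicAlgCl q) (z - r)) + -(algebraMap ℚ_[q] (PadicAlgCl q) (z - r)) := by
    have h1 : τ (r : PadicAlgCl q) = (r : PadicAlgCl q) := map_ratCast τ r
    rw [map_sub, map_sub, map_ratCast, h1]
    ring
  rw [e, zero_add]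
  refine (IsUltrametricDist.norm_add_le_max _ _).trans ?_
  rw [norm_neg, hτ, max_self, Pool.Agent.P8H4.PL.Fr.norm_pad]
  exact hr.le

lemma exists_gq (τ : RingAut (PadicAlgCl q)) (hτ : ∀ x, ‖τ x‖ = ‖x‖) :
    ∃ σ : Gq q, toR σ = τ :=
  ⟨AlgEquiv.ofRingEquiv (f := (τ : PadicAlgCl q ≃+* PadicAlgCl q)) (fix_pad τ hτ), rfl⟩

theorem frob (D : Subgroup (RingAut (PadicAlgCl q))) (hD : ∀ τ ∈ D, ∀ x, ‖τ x‖ = ‖x‖)
    (S : Finset (PadicAlgCl q)) (hS : ∀ x ∈ S, ‖x‖ ≤ 1) :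
    ∃ φ ∈ D, ∀ τ ∈ D, ∃ n : ℕ, ∀ x ∈ S, ‖τ x - (φ ^ n) x‖ < 1 := by
  obtain ⟨φ, hφ, h1⟩ := Pool.Agent.P8H4.PL.Fr.frob (D.comap toR) S hS
  refine ⟨toR φ, hφ, fun τ hτ => ?_⟩
  obtain ⟨σ, rfl⟩ := exists_gq τ (hD τ hτ)
  obtain ⟨n, hn⟩ := h1 σ hτ
  refine ⟨n, fun x hx => ?_⟩
  have h2 := hn x hx
  have e : (toR φ ^ n) x = (φ ^ n) x := by rw [← map_pow]; rfl
  rw [e]
  exact h2

end frob

namespace Rd

variable {C : Type} [NormedField C] [IsUltrametricDist C] {V : WeierstrassCurve C}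

lemma red_eq_zero (R : Rd V) (P : Pt V) :
    R.red P = 0 ↔ ∀ x y (h : V.toAffine.Nonsingular x y), P = pt h → 1 < ‖x‖ := by
  constructor
  · rintro h x y hxy rfl
    by_contra hx
    rw [not_lt] at hx
    obtain ⟨-, h', e⟩ := R.red_near x y hxy hx
    rw [e] at h
    exact pt_ne h' h
  · intro h
    rcases pt_cases P with rfl | ⟨x, y, hxy, rfl⟩
    · exact map_zero _
    · exact R.red_far x y hxy (h x y hxy rfl)

lemma hinv (R : Rd V) (G : Subgroup (RingAut C))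
    (hG : ∀ τ ∈ G, V.map ((τ : C ≃+* C) : C →+* C) = V) (hI : ∀ τ ∈ G, ∀ x, ‖τ x‖ = ‖x‖)
    (τ : G) (P : Pt V) (h : R.red P = 0) : R.red (T G hG τ P) = 0 := by
  rw [red_eq_zero] at h ⊢
  rcases pt_cases P with rfl | ⟨x, y, hxy, rfl⟩
  · intro x y hxy e
    rw [map_zero] at e
    exact absurd e.symm (pt_ne hxy)
  · intro x' y' h' e
    have h1 := h x y hxy rfl
    rw [T_pt] at e
    obtain ⟨e1, -⟩ := pt_inj e
    rw [← e1]
    exact h1.trans_eq (hI τ τ.2 x).symm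

lemma hinj (R : Rd V) (hV : Gd V) {p : ℕ} (hp : p.Prime) (hpn : ‖(p : C)‖ = 1) (n : ℕ) (P : Pt V)
    (hT : p ^ n • P = 0) (h : R.red P = 0) : P = 0 := by
  induction n generalizing P with
  | zero => rw [pow_zero, one_smul] at hT; exact hT
  | succ n ih =>
    rw [pow_succ, mul_smul] at hT
    have h1 : p • P = 0 := ih (p • P) hT (by rw [map_nsmul, h, smul_zero])
    rcases pt_cases P with rfl | ⟨x, y, hxy, rfl⟩
    · rfl
    · exfalso
      have h2 := tor_int hV hp hpn hxy h1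
      have h3 := (R.red_eq_zero _).1 h x y hxy rfl
      linarith

lemma r_congr (R : Rd V) {x y : C} (hx : ‖x‖ ≤ 1) (hy : ‖y‖ ≤ 1) (h : ‖x - y‖ < 1) :
    R.v.r x = R.v.r y := by
  rw [← sub_eq_zero, ← R.v.r_sub ((R.memA _).2 hx) ((R.memA _).2 hy)]
  exact (R.r0 _ h.le).2 h

/-- points with congruent coordinates have the same reduction -/
lemma red_congr (R : Rd V) {x y x' y' : C}
    (h : V.toAffine.Nonsingular x y) (h' : V.toAffine.Nonsingular x' y') (hx : ‖x‖ ≤ 1)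
    (hx' : ‖x'‖ ≤ 1) (hxx : ‖x - x'‖ < 1) (hyy : ‖y - y'‖ < 1) :
    R.red (pt h) = R.red (pt h') := by
  obtain ⟨hy, g, e⟩ := R.red_near x y h hx
  obtain ⟨hy', g', e'⟩ := R.red_near x' y' h' hx'
  rw [e, e']
  exact pt_congr _ _ (R.r_congr hx hx' hxx) (R.r_congr hy hy' hyy)

/-- the coordinate of a point -/
noncomputable def cx : Pt V → C
  | Affine.Point.zero => 0
  | Affine.Point.some x _ _ => x

/-- the coordinate of a point -/
noncomputable def cy : Pt V → C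
  | Affine.Point.zero => 0
  | Affine.Point.some _ y _ => y

/-- Frobenius elements for points -/
theorem frobP (R : Rd V) (G : Subgroup (RingAut C))
    (hG : ∀ τ ∈ G, V.map ((τ : C ≃+* C) : C →+* C) = V) (hI : ∀ τ ∈ G, ∀ x, ‖τ x‖ = ‖x‖)
    (hF : ∀ D : Subgroup (RingAut C), (∀ τ ∈ D, ∀ x, ‖τ x‖ = ‖x‖) → ∀ S : Finset C,
      (∀ x ∈ S, ‖x‖ ≤ 1) → ∃ φ ∈ D, ∀ τ ∈ D, ∃ n : ℕ, ∀ x ∈ S, ‖τ x - (φ ^ n) x‖ < 1)
    (D : Subgroup G) (X : Finset (Pt V)) (S : Finset C) (hS : ∀ x ∈ S, ‖x‖ ≤ 1) :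
    ∃ φ ∈ D, ∀ τ ∈ D, ∃ n : ℕ, (∀ P ∈ X, R.red (T G hG τ P) = R.red (T G hG (φ ^ n) P)) ∧
      ∀ x ∈ S, ‖(τ : RingAut C) x - ((φ : RingAut C) ^ n) x‖ < 1 := by
  classical
  set S' : Finset C := S ∪ ((X.image cx ∪ X.image cy).filter (fun x => ‖x‖ ≤ 1)) with hS'
  obtain ⟨φ, hφ, h1⟩ := hF (D.map G.subtype) (by
    rintro _ ⟨τ, -, rfl⟩
    exact hI τ τ.2) S' (by
    intro x hx
    rw [hS', Finset.mem_union, Finset.mem_filter] at hx
    rcases hx with hx | hx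
    · exact hS x hx
    · exact hx.2)
  obtain ⟨φ, hφD, rfl⟩ := hφ
  refine ⟨φ, hφD, fun τ hτ => ?_⟩
  obtain ⟨n, hn⟩ := h1 τ ⟨τ, hτ, rfl⟩
  have hn' : ∀ x ∈ S', ‖(τ : RingAut C) x - ((φ : RingAut C) ^ n) x‖ < 1 := hn
  refine ⟨n, fun P hP => ?_, fun x hx => hn' x (by rw [hS', Finset.mem_union]; exact Or.inl hx)⟩
  rcases pt_cases P with rfl | ⟨x, y, h, rfl⟩
  · rw [map_zero (T G hG τ), map_zero (T G hG (φ ^ n))]
  · by_cases hx : ‖x‖ ≤ 1
    · have hy : ‖y‖ ≤ 1 := (R.red_near x y h hx).1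
      have hxS : x ∈ S' := by
        rw [hS', Finset.mem_union, Finset.mem_filter, Finset.mem_union]
        exact Or.inr ⟨Or.inl (Finset.mem_image.2 ⟨_, hP, rfl⟩), hx⟩
      have hyS : y ∈ S' := by
        rw [hS', Finset.mem_union, Finset.mem_filter, Finset.mem_union]
        exact Or.inr ⟨Or.inr (Finset.mem_image.2 ⟨_, hP, rfl⟩), hy⟩
      rw [T_pt, T_pt]
      exact R.red_congr _ _ ((hI τ τ.2 x).trans_le hx) ((hI _ (φ ^ n).2 x).trans_le hx)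
        (hn' x hxS) (hn' y hyS)
    · rw [not_le] at hx
      rw [T_pt, T_pt]
      exact (R.red_far _ _ _ (hx.trans_eq (hI τ τ.2 x).symm)).trans
        (R.red_far _ _ _ (hx.trans_eq (hI _ (φ ^ n).2 x).symm)).symm

end Rd

end Pool.Agent.P8H4.PK
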