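import Pool.Agent.P8H4.PK.Inf
import Pool.Agent.P8H4.PL.Sel

/-!
# Selmer groups in terms of embeddings and the extension of the base field
-/

set_option autoImplicit false

open NumberField IsDedekindDomain

namespace Pool.Agent.P8H4.PK

open Pool.Agent.P8H4.PL (Gf gal_of_fix relindex)

variable {Ω : Type} [Field Ω] {V : WeierstrassCurve Ω} (G : Subgroup (RingAut Ω))
  (hG : ∀ σ ∈ G, V.map ((σ : Ω ≃+* Ω) : Ω →+* Ω) = V)

section defs

/-- continuous cocycles -/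
structure Coc (N : Subgroup G) (f : G → Pt V) : Prop where
  cont : ∃ S : Finset Ω, ∀ σ ∈ N, (∀ x ∈ S, (σ : RingAut Ω) x = x) → f σ = 0
  mul : ∀ σ ∈ N, ∀ τ ∈ N, f (σ * τ) = f σ + T G hG σ (f τ)

variable {G} in
/-- local triviality for the embedding `ι` -/
def LTr {C : Type} [NormedField C] (ι : Ω →+* C) (N : Subgroup G) (f : G → Pt V) : Prop :=
  ∀ (V' : WeierstrassCurve C) (hV' : V.map ι = V'), ∃ P : Pt V',
    ∀ (τ : RingAut C) (h : V'.map ((τ : C ≃+* C) : C →+* C) = V'), (∀ x, ‖τ x‖ = ‖x‖) →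
      ∀ σ ∈ N, (∀ x, τ (ι x) = ι ((σ : RingAut Ω) x)) →
        mp ι hV' (f σ) = mp ((τ : C ≃+* C) : C →+* C) h P - P

variable {G} in
/-- local triviality -/
structure ELoc (N : Subgroup G) (f : G → Pt V) : Prop where
  fin : ∀ (q : ℕ) [Fact q.Prime] (ι : Ω →+* PadicAlgCl q), LTr ι N f
  inf : ∀ ι : Ω →+* ℂ, LTr ι N f

/-- the `p`-Selmer group is trivial -/
def SelTriv (N : Subgroup G) (p : ℕ) : Prop :=
  ∀ f : G → Pt V, Coc G hG N f → (∀ σ ∈ N, p • f σ = 0) → ELoc N f →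
    ∃ t : Pt V, p • t = 0 ∧ ∀ σ ∈ N, f σ = T G hG σ t - t

end defs

section res

variable [CharZero Ω] [IsAlgClosed Ω] [Algebra.IsAlgebraic ℚ Ω] {C : Type} [Field C] [CharZero C]

/-- restriction of automorphisms -/
theorem exists_res (ι : Ω →+* C) : ∃ res : RingAut C →* RingAut Ω,
    ∀ (τ : RingAut C) (x : Ω), τ (ι x) = ι (res τ x) := by
  have hnorm : Normal ℚ Ω := by
    have : IsAlgClosure ℚ Ω := ⟨inferInstance, inferInstance⟩
    exact IsAlgClosure.normal ℚ Ω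
  have key : ∀ τ : RingAut C, ∃ σ : Gal(Ω/ℚ), ∀ x, τ (ι x) = ι (σ x) := by
    intro τ
    exact gal_of_fix (k := ℚ) (K := Ω) (τ : C ≃+* C) ι (fun x => by
      have h1 : ι (algebraMap ℚ Ω x) = (x : C) := by
        have : algebraMap ℚ Ω x = (x : Ω) := rfl
        rw [this, map_ratCast]
      rw [h1]
      exact map_ratCast τ x)
  choose s hs using key
  refine ⟨MonoidHom.mk' (fun τ => ((s τ : Ω ≃ₐ[ℚ] Ω) : Ω ≃+* Ω)) ?_, hs⟩
  intro σ τ
  ext x
  apply ι.injective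
  show ι (s (σ * τ) x) = ι (s σ (s τ x))
  rw [← hs, ← hs, ← hs]
  rfl

end res

lemma T_inj (σ : G) : Function.Injective (T G hG σ) := mp_inj _ _

/-- the action on the functions -/
noncomputable def AF (g : G) : (G → Pt V) →+ (G → Pt V) where
  toFun f := fun τ => T G hG g (f (g⁻¹ * τ * g))
  map_zero' := by funext τ; exact map_zero _
  map_add' f f' := by funext τ; exact map_add _ _ _

lemma AF_apply (g τ : G) (f : G → Pt V) : AF G hG g f τ = T G hG g (f (g⁻¹ * τ * g)) := rfl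

lemma AF_one (f : G → Pt V) : AF G hG 1 f = f := by
  funext τ
  rw [AF_apply, T_one, inv_one, one_mul, mul_one]

lemma AF_mul (g h : G) (f : G → Pt V) : AF G hG (g * h) f = AF G hG g (AF G hG h f) := by
  funext τ
  have e : (g * h)⁻¹ * τ * (g * h) = h⁻¹ * (g⁻¹ * τ * g) * h := by group
  rw [AF_apply, AF_apply, AF_apply, T_mul, e]

section LTr

variable {G} {N : Subgroup G} {C : Type} [NormedField C] {ι : Ω →+* C}

omit [Field Ω] in
lemma ltr_zero [Field Ω] {V : WeierstrassCurve Ω} {G : Subgroup (RingAut Ω)} {N : Subgroup G}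
    {ι : Ω →+* C} : LTr (V := V) ι N 0 := by
  intro V' hV'
  refine ⟨0, fun τ h _ σ _ _ => ?_⟩
  show mp ι hV' (0 : Pt V) = _
  rw [map_zero, map_zero, sub_zero]

lemma ltr_add {f f' : G → Pt V} (hf : LTr ι N f) (hf' : LTr ι N f') : LTr ι N (f + f') := by
  intro V' hV'
  obtain ⟨P, hP⟩ := hf V' hV'
  obtain ⟨P', hP'⟩ := hf' V' hV'
  refine ⟨P + P', fun τ h hi σ hσ hc => ?_⟩
  show mp ι hV' (f σ + f' σ) = _
  rw [map_add, hP τ h hi σ hσ hc, hP' τ h hi σ hσ hc, map_add]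
  abel

lemma ltr_neg {f : G → Pt V} (hf : LTr ι N f) : LTr ι N (-f) := by
  intro V' hV'
  obtain ⟨P, hP⟩ := hf V' hV'
  refine ⟨-P, fun τ h hi σ hσ hc => ?_⟩
  show mp ι hV' (-f σ) = _
  rw [map_neg, hP τ h hi σ hσ hc, map_neg]
  abel

lemma ltr_AF (hN : ∀ g σ : G, σ ∈ N → g⁻¹ * σ * g ∈ N) {f : G → Pt V} (g : G)
    (hf : LTr (ι.comp (((g : RingAut Ω) : Ω ≃+* Ω) : Ω →+* Ω)) N f) :
    LTr ι N (AF G hG g f) := by
  intro V' hV'
  have h1 : V.map (ι.comp (((g : RingAut Ω) : Ω ≃+* Ω) : Ω →+* Ω)) = V' :=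
    map_comp (hG g g.2) hV'
  obtain ⟨P, hP⟩ := hf V' h1
  refine ⟨P, fun τ h hi σ hσ hc => ?_⟩
  rw [← hP τ h hi _ (hN g σ hσ) (by
    intro x
    show τ (ι ((g : RingAut Ω) x)) = ι ((g : RingAut Ω) ((g : RingAut Ω)⁻¹ ((σ : RingAut Ω)
      ((g : RingAut Ω) x))))
    rw [hc]
    congr 1
    exact ((g : RingAut Ω).apply_symm_apply _).symm), AF_apply]
  exact mp_comp _ _ _ _

end LTr

section SB

variable {G} (N : Subgroup G) (p : ℕ)

/-- the group of the Selmer cocycles -/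
def SC : AddSubgroup (G → Pt V) where
  carrier := {f | Coc G hG N f ∧ (∀ σ ∈ N, p • f σ = 0) ∧ ELoc N f}
  zero_mem' := by
    refine ⟨⟨⟨∅, fun _ _ _ => rfl⟩, fun σ _ τ _ => ?_⟩, fun σ _ => smul_zero _,
      ⟨fun q _ ι => ltr_zero, fun ι => ltr_zero⟩⟩
    show (0 : Pt V) = 0 + T G hG σ 0
    rw [map_zero, add_zero]
  add_mem' := by
    classical
    rintro f f' ⟨⟨⟨S, hS⟩, h1⟩, h2, h3⟩ ⟨⟨⟨S', hS'⟩, h1'⟩, h2', h3'⟩
    refine ⟨⟨⟨S ∪ S', fun σ hσ hx => ?_⟩, fun σ hσ τ hτ => ?_⟩, fun σ hσ => ?_,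
      ⟨fun q _ ι => ltr_add (h3.fin q ι) (h3'.fin q ι), fun ι => ltr_add (h3.inf ι) (h3'.inf ι)⟩⟩
    · show f σ + f' σ = 0
      rw [hS σ hσ fun x hx' => hx x (Finset.mem_union_left _ hx'),
        hS' σ hσ fun x hx' => hx x (Finset.mem_union_right _ hx'), add_zero]
    · show f (σ * τ) + f' (σ * τ) = f σ + f' σ + T G hG σ (f τ + f' τ)
      rw [h1 σ hσ τ hτ, h1' σ hσ τ hτ, map_add]
      abel
    · show p • (f σ + f' σ) = 0
      rw [smul_add, h2 σ hσ, h2' σ hσ, add_zero]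
  neg_mem' := by
    rintro f ⟨⟨⟨S, hS⟩, h1⟩, h2, h3⟩
    refine ⟨⟨⟨S, fun σ hσ hx => ?_⟩, fun σ hσ τ hτ => ?_⟩, fun σ hσ => ?_,
      ⟨fun q _ ι => ltr_neg (h3.fin q ι), fun ι => ltr_neg (h3.inf ι)⟩⟩
    · show -f σ = 0
      rw [hS σ hσ hx, neg_zero]
    · show -f (σ * τ) = -f σ + T G hG σ (-f τ)
      rw [h1 σ hσ τ hτ, map_neg]
      abel
    · show p • (-f σ) = 0
      rw [smul_neg, h2 σ hσ, neg_zero]

/-- the group of the coboundaries -/
def BC : AddSubgroup (G → Pt V) where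
  carrier := {f | ∃ t : Pt V, p • t = 0 ∧ ∀ σ ∈ N, f σ = T G hG σ t - t}
  zero_mem' := ⟨0, smul_zero _, fun σ _ => by
    show (0 : Pt V) = _
    rw [map_zero, sub_zero]⟩
  add_mem' := by
    rintro f f' ⟨t, ht, h⟩ ⟨t', ht', h'⟩
    refine ⟨t + t', by rw [smul_add, ht, ht', add_zero], fun σ hσ => ?_⟩
    show f σ + f' σ = _
    rw [h σ hσ, h' σ hσ, map_add]
    abel
  neg_mem' := by
    rintro f ⟨t, ht, h⟩
    refine ⟨-t, by rw [smul_neg, ht, neg_zero], fun σ hσ => ?_⟩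
    show -f σ = _
    rw [h σ hσ, map_neg]
    abel

variable {N} in
lemma coc_one {f : G → Pt V} (hf : Coc G hG N f) : f 1 = 0 := by
  have := hf.mul 1 N.one_mem 1 N.one_mem
  rw [one_mul, T_one] at this
  have h2 : f 1 + f 1 - f 1 = f 1 - f 1 := by rw [← this]
  rwa [add_sub_cancel_right, sub_self] at h2

end SB

/-- the local lifting property -/
def LocBox {k K C : Type} [Field k] [Field K] [NormedField C] (j : K →+* C) (j0 : k →+* C)
    (V' : WeierstrassCurve C) (p : ℕ) : Prop :=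
  ∀ (hV : ∀ τ ∈ DD j0, V'.map ((τ : C ≃+* C) : C →+* C) = V') (c : DD j0 → Pt V'),
    (∀ σ τ, c (σ * τ) = c σ + T _ hV σ (c τ)) → (∀ σ, p • c σ = 0) →
    ∀ P : Pt V', (∀ σ : DD j0, (σ : RingAut C) ∈ DD j → c σ = T _ hV σ P - P) →
    ∃ P' : Pt V', ∀ σ, c σ = T _ hV σ P' - P'

variable {k K : Type} [Field k] [NumberField k] [Field K] [NumberField K] [Algebra k K]

/-- the local part of the lifting theorem -/
lemma lift_loc [CharZero Ω] [IsAlgClosed Ω] [Algebra.IsAlgebraic ℚ Ω] {p : ℕ} (i : K →+* Ω)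
    {i0 : k →+* Ω} (hi : i.comp (algebraMap k K) = i0)
    (hG : ∀ σ ∈ Gf i0, V.map ((σ : Ω ≃+* Ω) : Ω →+* Ω) = V)
    {C : Type} [NormedField C] [CharZero C] (ι : Ω →+* C)
    (hbox : ∀ V' : WeierstrassCurve C, V.map ι = V' → LocBox (ι.comp i) (ι.comp i0) V' p)
    {g y : Gf i0 → Pt V} (hmul : ∀ σ τ, g (σ * τ) = g σ + T _ hG σ (g τ)) (hpg : ∀ σ, p • g σ = 0)
    (hgN : ∀ σ : Gf i0, (σ : RingAut Ω) ∈ Gf i → g σ = y σ)
    (hy : LTr ι ((Gf i).subgroupOf (Gf i0)) y) : LTr ι ⊤ g := by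
  intro V' hV'
  obtain ⟨res, hres⟩ := exists_res ι
  obtain ⟨P, hP⟩ := hy V' hV'
  have hD : ∀ τ ∈ DD (ι.comp i0), res τ ∈ Gf i0 := by
    intro τ hτ x
    apply ι.injective
    rw [← hres]
    exact hτ.2 x
  have hN : ∀ τ ∈ DD (ι.comp i), res τ ∈ Gf i := by
    intro τ hτ x
    apply ι.injective
    rw [← hres]
    exact hτ.2 x
  have hV : ∀ τ ∈ DD (ι.comp i0), V'.map ((τ : C ≃+* C) : C →+* C) = V' := by
    intro τ hτ
    have e : ((τ : C ≃+* C) : C →+* C).comp ι = ι.comp ((res τ : Ω ≃+* Ω) : Ω →+* Ω) :=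
      RingHom.ext fun x => hres τ x
    conv_lhs => rw [← hV']
    rw [WeierstrassCurve.map_map, e, ← WeierstrassCurve.map_map, hG _ (hD τ hτ), hV']
  let r : DD (ι.comp i0) → Gf i0 := fun τ => ⟨res τ, hD τ τ.2⟩
  have hr : ∀ σ τ, r (σ * τ) = r σ * r τ := fun σ τ => Subtype.ext (map_mul res _ _)
  have hcomm : ∀ (τ : DD (ι.comp i0)) (Q : Pt V), T _ hV τ (mp ι hV' Q) =
      mp ι hV' (T _ hG (r τ) Q) := by
    intro τ Q
    unfold T
    have h1 : V.map ((((τ : RingAut C) : C ≃+* C) : C →+* C).comp ι) = V' :=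
      map_comp hV' (hV τ τ.2)
    have h2 : V.map (ι.comp ((((r τ : RingAut Ω)) : Ω ≃+* Ω) : Ω →+* Ω)) = V' :=
      map_comp (hG _ (r τ).2) hV'
    rw [mp_comp _ _ h1, mp_comp _ _ h2]
    exact mp_congr (fun x => hres τ x) Q
  obtain ⟨P', hP'⟩ := hbox V' hV' hV (fun τ => mp ι hV' (g (r τ))) (by
    intro σ τ
    show mp ι hV' (g (r (σ * τ))) = mp ι hV' (g (r σ)) + T _ hV σ (mp ι hV' (g (r τ)))
    rw [hr, hmul, map_add, hcomm]) (by
    intro σ
    show p • mp ι hV' (g (r σ)) = 0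
    rw [← map_nsmul, hpg, map_zero]) P (by
    intro σ hσ
    show mp ι hV' (g (r σ)) = _
    have hrN : ((r σ : Gf i0) : RingAut Ω) ∈ Gf i := hN σ hσ
    rw [hgN _ hrN]
    exact hP σ (hV σ σ.2) σ.2.1 _ (Subgroup.mem_subgroupOf.2 hrN) (hres σ))
  refine ⟨P', fun τ h hi' σ _ hc => ?_⟩
  have hτ : τ ∈ DD (ι.comp i0) := by
    refine ⟨hi', fun x => ?_⟩
    show τ (ι (i0 x)) = ι (i0 x)
    rw [hc, σ.2 x]
  have e : σ = r ⟨τ, hτ⟩ := by
    apply Subtype.ext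
    ext x
    apply ι.injective
    rw [← hc]
    exact hres τ x
  rw [e]
  exact hP' ⟨τ, hτ⟩

/-- **The Selmer group over a `p`-extension.** -/
theorem lift_sel [CharZero Ω] [IsAlgClosed Ω] [Algebra.IsAlgebraic ℚ Ω] [IsGalois k K] {p n : ℕ}
    (hp : p.Prime) (hn : Module.finrank k K = p ^ n) (i : K →+* Ω)
    {i0 : k →+* Ω} (hi : i.comp (algebraMap k K) = i0)
    (hG : ∀ σ ∈ Gf i0, V.map ((σ : Ω ≃+* Ω) : Ω →+* Ω) = V)
    (hE : ∀ t : Pt V, p • t = 0 → (∀ σ, T (Gf i0) hG σ t = t) → t = 0)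
    (hbox : ∀ (q : ℕ) [Fact q.Prime] (ι : Ω →+* PadicAlgCl q) (V' : WeierstrassCurve (PadicAlgCl q)),
      V.map ι = V' → LocBox (ι.comp i) (ι.comp i0) V' p)
    (hboxi : ∀ (ι : Ω →+* ℂ) (V' : WeierstrassCurve ℂ),
      V.map ι = V' → LocBox (ι.comp i) (ι.comp i0) V' p)
    (hS : SelTriv (Gf i0) hG ⊤ p) : SelTriv (Gf i0) hG ((Gf i).subgroupOf (Gf i0)) p := by
  classical
  set G := Gf i0 with hGdef
  set N : Subgroup G := (Gf i).subgroupOf G with hNdef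
  have hN : ∀ τ : G, τ ∈ N ↔ (τ : RingAut Ω) ∈ Gf i := fun τ => Subgroup.mem_subgroupOf
  have hix : ∀ (g : G) (x : k), g.1 (i (algebraMap k K x)) = i (algebraMap k K x) := by
    intro g x
    have h1 : i (algebraMap k K x) = i0 x := DFunLike.congr_fun hi x
    rw [h1]
    exact g.2 x
  obtain ⟨hND, hnor, m, hm⟩ := relindex (k := k) hp hn G.subtype i
    (⊤ : Subgroup G) N (fun g => ⟨fun _ x => hix g x, fun _ => trivial⟩)
    (fun g => ⟨fun h x => (hN g).1 h x, fun h => (hN g).2 fun x => h x⟩)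
  have hnor' : ∀ g σ : G, σ ∈ N → g⁻¹ * σ * g ∈ N := fun g σ hσ => hnor g trivial σ hσ
  have hNn : N.Normal := ⟨fun τ hτ σ => by
    have := hnor' σ⁻¹ τ hτ
    rwa [inv_inv] at this⟩
  have hm' : N.index = p ^ m := by rw [← Subgroup.relIndex_top_right]; exact hm
  have hA : ∀ a : Pt V, p • a = 0 → (∀ σ ∈ N, T G hG σ a = a) → a = 0 :=
    Pool.Agent.P8H4.PL.Gr.fixN (T G hG) (T_one G hG) (T_mul G hG) hp ⊤ N hND hnor hm
      (fun a ha h => hE a ha fun σ => h σ trivial)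
  by_contra hcon
  unfold SelTriv at hcon
  push Not at hcon
  obtain ⟨f, hf1, hf2, hf3, hf4⟩ := hcon
  have hfS : f ∈ SC hG N p := ⟨hf1, hf2, hf3⟩
  have hfB : f ∉ BC hG N p := by
    rintro ⟨t, ht, h⟩
    obtain ⟨σ, hσ, h2⟩ := hf4 t ht
    exact h2 (h σ hσ)
  obtain ⟨y, hyS, hyB, hy⟩ := Pool.Agent.P8H4.PL.Gr.exists_fix_rel (G := G) (fun g => AF G hG g)
    (fun a => AF_one G hG a) (fun g h a => AF_mul G hG g h a) hp N hm'
    (SC hG N p) (BC hG N p) (by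
      rintro g f ⟨⟨⟨S, hS⟩, h1⟩, h2, h3⟩
      refine ⟨⟨⟨S.image (g : RingAut Ω), fun σ hσ hx => ?_⟩, fun σ hσ τ hτ => ?_⟩, fun σ hσ => ?_,
        ⟨fun q _ ι => ltr_AF hG hnor' g (h3.fin q _), fun ι => ltr_AF hG hnor' g (h3.inf _)⟩⟩
      · rw [AF_apply, hS _ (hnor' g σ hσ), map_zero]
        intro x hx'
        show (g : RingAut Ω)⁻¹ ((σ : RingAut Ω) ((g : RingAut Ω) x)) = x
        rw [hx _ (Finset.mem_image_of_mem _ hx')]
        exact (g : RingAut Ω).symm_apply_apply x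
      · rw [AF_apply, AF_apply, AF_apply, ← T_mul]
        have e : g⁻¹ * (σ * τ) * g = (g⁻¹ * σ * g) * (g⁻¹ * τ * g) := by group
        rw [e, h1 _ (hnor' g σ hσ) _ (hnor' g τ hτ), map_add, ← T_mul]
        congr 3
        group
      · rw [AF_apply, ← map_nsmul, h2 _ (hnor' g σ hσ), map_zero]) (by
      rintro g f ⟨t, ht, h⟩
      refine ⟨T G hG g t, by rw [← map_nsmul, ht, map_zero], fun σ hσ => ?_⟩
      rw [AF_apply, h _ (hnor' g σ hσ), map_sub, ← T_mul, ← T_mul]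
      congr 3
      group) (by
      rintro g hg f ⟨h1, h2, -⟩
      refine ⟨f g, h2 _ hg, fun τ hτ => ?_⟩
      show AF G hG g f τ - f τ = _
      have hgi := N.inv_mem hg
      have e1 := h1.mul _ hg _ hgi
      rw [mul_inv_cancel, coc_one hG h1] at e1
      rw [AF_apply, h1.mul _ (N.mul_mem hgi hτ) _ hg, h1.mul _ hgi _ hτ, map_add, map_add,
        ← T_mul, ← T_mul, mul_inv_cancel, T_one, mul_inv_cancel_left]
      have h5 : T G hG g (f g⁻¹) = -f g := by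
        rw [eq_neg_iff_add_eq_zero, add_comm]
        exact e1.symm
      rw [h5]
      abel) (by
      rintro f ⟨-, h2, -⟩
      refine ⟨0, smul_zero _, fun σ hσ => ?_⟩
      show p • f σ = _
      rw [h2 σ hσ, map_zero, sub_zero]) hfS hfB
  obtain ⟨hy1, hy2, hy3⟩ := hyS
  -- the extension of the cocycle
  obtain ⟨g, hg1, hg2, hg3⟩ := Pool.Agent.P8H4.PL.Gr.ext_coc (G := G) (p := p) (fun g => T G hG g)
    (fun a => T_one G hG a) (fun g h a => T_mul G hG _ _ a) N hA y hy1.mul hy2 (by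
      intro σ
      obtain ⟨t, ht, h⟩ := hy σ
      exact ⟨t, ht, fun τ hτ => h τ hτ⟩)
  obtain ⟨t, ht, hTg⟩ := hS g ⟨by
    obtain ⟨S, hS⟩ := hy1.cont
    let b := Module.finBasis ℚ K
    refine ⟨S ∪ Finset.univ.image (fun l => i (b l)), fun σ _ hx => ?_⟩
    have hσi : σ ∈ N := by
      rw [hN]
      intro x
      rw [← b.sum_repr x, map_sum, map_sum]
      refine Finset.sum_congr rfl fun l _ => ?_
      rw [Algebra.smul_def, map_mul, map_mul]
      have h1 : (σ : RingAut Ω) (i (b l)) = i (b l) :=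
        hx _ (Finset.mem_union_right _ (Finset.mem_image_of_mem _ (Finset.mem_univ l)))
      rw [h1]
      congr 1
      simp
    rw [hg3 σ hσi]
    exact hS σ hσi fun x hx' => hx x (Finset.mem_union_left _ hx'), fun σ _ τ _ => hg1 σ τ⟩
    (fun σ _ => hg2 σ) ⟨fun q _ ι => lift_loc i hi hG ι (hbox q ι) hg1 hg2
      (fun σ hσ => hg3 σ ((hN σ).2 hσ)) (hy3.fin q ι), fun ι => lift_loc i hi hG ι (hboxi ι) hg1 hg2
      (fun σ hσ => hg3 σ ((hN σ).2 hσ)) (hy3.inf ι)⟩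
  exact hyB ⟨t, ht, fun σ hσ => by rw [← hg3 σ hσ]; exact hTg σ trivial⟩

end Pool.Agent.P8H4.PK
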