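import Pool.Agent.P8H4.PK.Dic
import Pool.Agent.P8H4.PK.MW
import Pool.Agent.P8H4.PL.Sha

/-!
# The Selmer group and the Tate-Shafarevich group
-/

set_option autoImplicit false

open NumberField IsDedekindDomain WeierstrassCurve

namespace Pool.Agent.P8H4.PK

open Pool.Agent.P8H4.PL (Gf gal_of_fix finite_of_div)
open Pool.Agent.TH841.SH.D (act Gal Coch IsCoc IsCob LocTriv cob)
open Pool.Agent.TH841.NF.D (Sha shaCoc IsShaCoc)

section aux

variable {Ω : Type} [Field Ω] {V : WeierstrassCurve Ω} {G : Subgroup (RingAut Ω)}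
  (hG : ∀ σ ∈ G, V.map ((σ : Ω ≃+* Ω) : Ω →+* Ω) = V) (N : Subgroup G)

/-- the coboundary of a point -/
noncomputable def bd (Q : Pt V) : G → Pt V := fun σ => T G hG σ Q - Q

lemma coc_bd (Q : Pt V) : Coc G hG N (bd hG Q) := by
  classical
  refine ⟨?_, fun σ _ τ _ => ?_⟩
  · rcases pt_cases Q with rfl | ⟨x, y, h, rfl⟩
    · refine ⟨∅, fun σ _ _ => ?_⟩
      show T G hG σ 0 - 0 = 0
      rw [map_zero, sub_zero]
    · refine ⟨{x, y}, fun σ _ hσ => ?_⟩
      show T G hG σ (pt h) - pt h = 0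
      rw [sub_eq_zero]
      exact pt_congr _ _ (hσ x (by simp)) (hσ y (by simp))
  · show T G hG (σ * τ) Q - Q = T G hG σ Q - Q + T G hG σ (T G hG τ Q - Q)
    rw [T_mul, map_sub]
    abel

lemma ltr_bd {C : Type} [NormedField C] (ι : Ω →+* C) (Q : Pt V) : LTr ι N (bd hG Q) := by
  intro V' hV'
  refine ⟨mp ι hV' Q, fun τ h _ σ _ hc => ?_⟩
  show mp ι hV' (T G hG σ Q - Q) = _
  rw [map_sub]
  congr 1
  unfold T
  rw [mp_comp _ _ (map_comp (hG σ σ.2) hV'), mp_comp _ _ (map_comp hV' h)]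
  exact mp_congr (fun x => (hc x).symm) _

lemma eloc_bd (Q : Pt V) : ELoc N (bd hG Q) :=
  ⟨fun _ _ ι => ltr_bd hG N ι Q, fun ι => ltr_bd hG N ι Q⟩

variable {N} in
lemma coc_sub {f g : G → Pt V} (hf : Coc G hG N f) (hg : Coc G hG N g) : Coc G hG N (f - g) := by
  classical
  obtain ⟨S, hS⟩ := hf.cont
  obtain ⟨S', hS'⟩ := hg.cont
  refine ⟨⟨S ∪ S', fun σ hσ hx => ?_⟩, fun σ hσ τ hτ => ?_⟩
  · show f σ - g σ = 0
    rw [hS σ hσ fun x hx' => hx x (Finset.mem_union_left _ hx'),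
      hS' σ hσ fun x hx' => hx x (Finset.mem_union_right _ hx'), sub_zero]
  · show f (σ * τ) - g (σ * τ) = f σ - g σ + T G hG σ (f τ - g τ)
    rw [hf.mul σ hσ τ hτ, hg.mul σ hσ τ hτ, map_sub]
    abel

variable {N} in
lemma eloc_sub {f g : G → Pt V} (hf : ELoc N f) (hg : ELoc N g) : ELoc N (f - g) := by
  rw [sub_eq_add_neg]
  exact ⟨fun q _ ι => ltr_add (hf.fin q ι) (ltr_neg (hg.fin q ι)),
    fun ι => ltr_add (hf.inf ι) (ltr_neg (hg.inf ι))⟩

end aux

section B1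

variable {K : Type} [Field K] [NumberField K] {E : WeierstrassCurve K}

omit [NumberField K] in
lemma bcm (E : WeierstrassCurve K) : E.map (algebraMap K (AlgebraicClosure K)) =
    E.baseChange (AlgebraicClosure K) := rfl

omit [NumberField K] in
lemma bc_ne (hΔ : E.Δ ≠ 0) : (E.baseChange (AlgebraicClosure K)).Δ ≠ 0 := by
  rw [← bcm, WeierstrassCurve.map_Δ]
  exact (map_ne_zero _).2 hΔ

omit [NumberField K] in
lemma gal_map (σ : Gal K) : (E.baseChange (AlgebraicClosure K)).map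
    ((σ : AlgebraicClosure K →ₐ[K] AlgebraicClosure K) : AlgebraicClosure K →+* AlgebraicClosure K) =
    E.baseChange (AlgebraicClosure K) := bc_map _

/-- a point fixed by the Galois group is rational -/
lemma fixed_pt (Q : Pt (E.baseChange (AlgebraicClosure K)))
    (hQ : ∀ σ : Gal K, mp ((σ : AlgebraicClosure K →ₐ[K] AlgebraicClosure K) :
      AlgebraicClosure K →+* AlgebraicClosure K) (gal_map σ) Q = Q) :
    ∃ Q0 : Pt E, mp (algebraMap K (AlgebraicClosure K)) (bcm E) Q0 = Q := by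
  rcases pt_cases Q with rfl | ⟨x, y, h, rfl⟩
  · exact ⟨0, map_zero _⟩
  · have hx : x ∈ Set.range (algebraMap K (AlgebraicClosure K)) := by
      rw [InfiniteGalois.mem_range_algebraMap_iff_fixed]
      intro τ
      exact (pt_inj (hQ τ)).1
    have hy : y ∈ Set.range (algebraMap K (AlgebraicClosure K)) := by
      rw [InfiniteGalois.mem_range_algebraMap_iff_fixed]
      intro τ
      exact (pt_inj (hQ τ)).2
    obtain ⟨x0, rfl⟩ := hx
    obtain ⟨y0, rfl⟩ := hy
    exact ⟨pt ((E.toAffine.map_nonsingular (algebraMap K (AlgebraicClosure K)).injective x0 y0).1 h),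
      rfl⟩

omit [NumberField K] in
lemma gal_mem (σ : Gal K) :
    ((σ : AlgebraicClosure K ≃+* AlgebraicClosure K) : RingAut (AlgebraicClosure K)) ∈
      Gf (algebraMap K (AlgebraicClosure K)) := fun x => σ.commutes x

/-- the automorphism over `K` -/
noncomputable def toGal (σ : RingAut (AlgebraicClosure K))
    (h : σ ∈ Gf (algebraMap K (AlgebraicClosure K))) : Gal K :=
  AlgEquiv.ofRingEquiv (f := (σ : AlgebraicClosure K ≃+* AlgebraicClosure K)) h

variable {G : Subgroup (RingAut (AlgebraicClosure K))}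
  (hKG : Gf (algebraMap K (AlgebraicClosure K)) ≤ G)
  (hG : ∀ σ ∈ G, (E.baseChange (AlgebraicClosure K)).map
    ((σ : AlgebraicClosure K ≃+* AlgebraicClosure K) : AlgebraicClosure K →+* AlgebraicClosure K) =
      E.baseChange (AlgebraicClosure K))

variable (G) in
open Classical in
/-- the function on the automorphisms of the ring -/
noncomputable def Fc (f : Coch E) (σ : G) : Pt (E.baseChange (AlgebraicClosure K)) :=
  if h : (σ : RingAut (AlgebraicClosure K)) ∈ Gf (algebraMap K (AlgebraicClosure K)) then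
    tr E _ (f (toGal σ h)) else 0

omit [NumberField K] in
lemma Fc_of (f : Coch E) {σ : G}
    (h : (σ : RingAut (AlgebraicClosure K)) ∈ Gf (algebraMap K (AlgebraicClosure K))) :
    Fc G f σ = tr E _ (f (toGal σ h)) := dif_pos h

omit [NumberField K] in
lemma coc_f1 {f : Coch E} (hf : IsCoc E f) : f 1 = 0 := by
  have := hf.2 1 1
  rw [mul_one] at this
  have e : act E ((1 : Gal K).toAlgHom) (f 1) = f 1 := by
    rcases f 1 with _ | ⟨x, y, h⟩ <;> rfl
  rw [e] at this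
  have h3 : f 1 + f 1 - f 1 = f 1 - f 1 := by rw [← this]
  rwa [add_sub_cancel_right, sub_self] at h3

lemma coc_Fc {f : Coch E} (hf : IsCoc E f) :
    Coc G hG ((Gf (algebraMap K (AlgebraicClosure K))).subgroupOf G) (Fc G f) := by
  classical
  refine ⟨?_, fun σ hσ τ hτ => ?_⟩
  · have hf1 : f 1 = 0 := coc_f1 hf
    have h1 : {σ : Gal K | f σ = 0} ∈ nhds (1 : Gal K) := by
      have h2 : ∀ᶠ σ in nhds (1 : Gal K), f σ = f 1 := hf.1.eventually_eq 1
      rw [hf1] at h2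
      exact h2
    rw [krullTopology_mem_nhds_one_iff] at h1
    obtain ⟨E', hE, hE2⟩ := h1
    let b := Module.finBasis K E'
    refine ⟨Finset.univ.image (fun l => ((b l : E') : AlgebraicClosure K)), fun σ hσ hx => ?_⟩
    have hσ' := Subgroup.mem_subgroupOf.1 hσ
    rw [Fc_of f hσ']
    have h3 : toGal σ hσ' ∈ E'.fixingSubgroup := by
      rw [IntermediateField.mem_fixingSubgroup_iff]
      intro x hxE
      have h4 : x = ((∑ l, b.repr ⟨x, hxE⟩ l • b l : E') : AlgebraicClosure K) := by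
        rw [b.sum_repr]
      rw [h4, AddSubmonoidClass.coe_finsetSum, map_sum]
      refine Finset.sum_congr rfl fun l _ => ?_
      rw [IntermediateField.coe_smul, Algebra.smul_def, map_mul, AlgEquiv.commutes]
      congr 1
      exact hx _ (Finset.mem_image_of_mem _ (Finset.mem_univ l))
    have h4 : f (toGal σ hσ') = 0 := hE2 h3
    rw [h4, map_zero]
  · have hσ' := Subgroup.mem_subgroupOf.1 hσ
    have hτ' := Subgroup.mem_subgroupOf.1 hτ
    have hm : ((σ * τ : G) : RingAut (AlgebraicClosure K)) ∈ Gf (algebraMap K (AlgebraicClosure K)) :=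
      Subgroup.mul_mem _ hσ' hτ'
    rw [Fc_of f hσ', Fc_of f hτ', Fc_of f hm]
    have h1 := hf.2 (toGal σ hσ') (toGal τ hτ')
    have h2 : toGal ((σ * τ : G) : RingAut (AlgebraicClosure K)) hm = toGal σ hσ' * toGal τ hτ' := rfl
    rw [h2, h1, map_add, tr_act]
    rfl

lemma eloc_Fc {f : Coch E}
    (hf : ∀ v : HeightOneSpectrum (𝓞 K), LocTriv E (v.adicCompletion K) f)
    (hf' : ∀ v : InfinitePlace K, LocTriv E v.Completion f) :
    ELoc ((Gf (algebraMap K (AlgebraicClosure K))).subgroupOf G) (Fc G f) := by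
  refine ⟨fun q _ ι V' hV' => ?_, fun ι V' hV' => ?_⟩
  · obtain ⟨P, hP⟩ := emb_fin f hf q ι V' hV'
    refine ⟨P, fun τ h hi σ hσ hc => ?_⟩
    have hσ' := Subgroup.mem_subgroupOf.1 hσ
    rw [Fc_of f hσ']
    exact hP τ h hi (toGal σ hσ') hc
  · obtain ⟨P, hP⟩ := emb_inf f hf' ι V' hV'
    refine ⟨P, fun τ h hi σ hσ hc => ?_⟩
    have hσ' := Subgroup.mem_subgroupOf.1 hσ
    rw [Fc_of f hσ']
    exact hP τ h hi (toGal σ hσ') hc

include hKG in
theorem sha_of_sel (hΔ : E.Δ ≠ 0) {p : ℕ} (hp : p.Prime)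
    (hS : SelTriv G hG ((Gf (algebraMap K (AlgebraicClosure K))).subgroupOf G) p) (s : Sha E)
    (hs : p • s = 0) : s = 0 := by
  have hΔ' : (E.baseChange (AlgebraicClosure K)).Δ ≠ 0 := bc_ne hΔ
  have hch : CharZero (AlgebraicClosure K) := charZero_of_injective_algebraMap
    (algebraMap K (AlgebraicClosure K)).injective
  obtain ⟨f, rfl⟩ := QuotientAddGroup.mk_surjective
    (s := (cob E).addSubgroupOf (shaCoc E)) s
  have h2 : (QuotientAddGroup.mk (p • f) : (shaCoc E) ⧸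
    (cob E).addSubgroupOf (shaCoc E)) = 0 := hs
  rw [QuotientAddGroup.eq_zero_iff, AddSubgroup.mem_addSubgroupOf] at h2
  obtain ⟨P, hP⟩ := h2
  have hP' : ∀ σ, p • f.1 σ = act E σ.toAlgHom P - P := fun σ => hP σ
  obtain ⟨Q, hQ⟩ := exists_div hΔ' hp.one_le (tr E (AlgebraicClosure K) P)
  obtain ⟨t, ht, h3⟩ := hS (Fc G f.1 - bd hG Q) (coc_sub hG (coc_Fc hG f.2.1) (coc_bd hG _ Q)) (by
    intro σ hσ
    have hσ' := Subgroup.mem_subgroupOf.1 hσ
    show p • (Fc G f.1 σ - (T G hG σ Q - Q)) = 0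
    rw [Fc_of f.1 hσ', smul_sub, ← map_nsmul, hP', map_sub, tr_act, smul_sub, ← map_nsmul, hQ,
      sub_eq_zero]
    rfl) (eloc_sub (eloc_Fc f.2.2.1 f.2.2.2) (eloc_bd hG _ Q))
  have h4 : f ∈ (cob E).addSubgroupOf (shaCoc E) := by
    rw [AddSubgroup.mem_addSubgroupOf]
    refine ⟨(tr E _).symm (Q + t), fun σ => ?_⟩
    apply (tr E _).injective
    rw [map_sub, tr_act, AddEquiv.apply_symm_apply]
    have h5 := h3 ⟨_, hKG (gal_mem σ)⟩ (Subgroup.mem_subgroupOf.2 (gal_mem σ))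
    have h7 : Fc G f.1 ⟨_, hKG (gal_mem σ)⟩ = tr E _ (f.1 σ) := by
      rw [Fc_of f.1 (gal_mem σ)]
      rfl
    have h8 : Fc G f.1 ⟨_, hKG (gal_mem σ)⟩ - (T G hG ⟨_, hKG (gal_mem σ)⟩ Q - Q) =
      T G hG ⟨_, hKG (gal_mem σ)⟩ t - t := h5
    rw [h7] at h8
    have h6 : tr E _ (f.1 σ) = T G hG ⟨_, hKG (gal_mem σ)⟩ (Q + t) - (Q + t) := by
      rw [map_add]
      rw [sub_eq_iff_eq_add] at h8
      rw [h8]
      abel
    exact h6
  exact (QuotientAddGroup.eq_zero_iff f).2 h4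

include hKG in
/-- the rational points are divisible by `p` -/
theorem div_of_sel (hΔ : E.Δ ≠ 0) {p : ℕ} (hp : p.Prime)
    (hS : SelTriv G hG ((Gf (algebraMap K (AlgebraicClosure K))).subgroupOf G) p) (P : Pt E) :
    ∃ Q : Pt E, p • Q = P := by
  have hΔ' : (E.baseChange (AlgebraicClosure K)).Δ ≠ 0 := bc_ne hΔ
  have hch : CharZero (AlgebraicClosure K) := charZero_of_injective_algebraMap
    (algebraMap K (AlgebraicClosure K)).injective
  obtain ⟨Q, hQ⟩ := exists_div hΔ' hp.one_le (mp (algebraMap K (AlgebraicClosure K)) (bcm E) P)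
  obtain ⟨t, ht, h3⟩ := hS (bd hG Q) (coc_bd hG _ Q) (by
    intro σ hσ
    have hσ' := Subgroup.mem_subgroupOf.1 hσ
    show p • (T G hG σ Q - Q) = 0
    rw [smul_sub, ← map_nsmul, hQ, sub_eq_zero]
    unfold T
    rw [mp_comp _ _ (map_comp (bcm E) (hG σ σ.2))]
    exact mp_congr (fun x => hσ' x) _) (eloc_bd hG _ Q)
  obtain ⟨Q0, hQ0⟩ := fixed_pt (Q - t) (fun σ => by
    have h5 := h3 ⟨_, hKG (gal_mem σ)⟩ (Subgroup.mem_subgroupOf.2 (gal_mem σ))
    have h6 : T G hG ⟨_, hKG (gal_mem σ)⟩ Q - Q = T G hG ⟨_, hKG (gal_mem σ)⟩ t - t := h5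
    show T G hG ⟨_, hKG (gal_mem σ)⟩ (Q - t) = Q - t
    rw [map_sub, ← sub_eq_zero]
    have e : ∀ a b c d : Pt (E.baseChange (AlgebraicClosure K)),
        a - b - (c - d) = (a - c) - (b - d) := by
      intro a b c d; abel
    rw [e, h6, sub_self])
  refine ⟨Q0, mp_inj (algebraMap K (AlgebraicClosure K)) (bcm E) ?_⟩
  rw [map_nsmul, hQ0, smul_sub, ht, sub_zero, hQ]

include hKG in
theorem points_of_sel (hΔ : E.Δ ≠ 0) {p : ℕ} (hp : p.Prime)
    (hS : SelTriv G hG ((Gf (algebraMap K (AlgebraicClosure K))).subgroupOf G) p) :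
    Finite (Pt E) ∧ ¬ p ∣ Nat.card (Pt E) := by
  have := mw hΔ
  exact finite_of_div hp (div_of_sel hKG hG hΔ hp hS)

end B1

end Pool.Agent.P8H4.PK
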