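import Pool.Agent.P8H4.PK.Sha
import Pool.Agent.P8H4.PL.Sha2

/-!
# From the Tate-Shafarevich group to the Selmer group
-/

set_option autoImplicit false

open NumberField IsDedekindDomain WeierstrassCurve

namespace Pool.Agent.P8H4.PK

open Pool.Agent.P8H4.PL (Gf exists_iso cjg cjg_apply)
open Pool.Agent.TH841.SH.D (act Gal Coch IsCoc IsCob LocTriv cob)
open Pool.Agent.TH841.NF.D (Sha shaCoc IsShaCoc)

variable {F : Type} [Field F] [NumberField F] {E : WeierstrassCurve F}
  {Ω : Type} [Field Ω] [CharZero Ω] [IsAlgClosed Ω] [Algebra.IsAlgebraic ℚ Ω]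

omit [NumberField F] [CharZero Ω] [IsAlgClosed Ω] [Algebra.IsAlgebraic ℚ Ω] in
lemma cjg_mem {i : F →+* Ω} {e : AlgebraicClosure F ≃+* Ω}
    (he : ∀ x, e (algebraMap F (AlgebraicClosure F) x) = i x) (σ : Gal F) : cjg e σ ∈ Gf i := by
  intro x
  rw [← he, cjg_apply, σ.commutes]

omit [NumberField F] [CharZero Ω] [IsAlgClosed Ω] [Algebra.IsAlgebraic ℚ Ω] in
lemma sym_map {i : F →+* Ω} {V : WeierstrassCurve Ω} (hV : E.map i = V)
    {e : AlgebraicClosure F ≃+* Ω}
    (he : ∀ x, e (algebraMap F (AlgebraicClosure F) x) = i x) :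
    V.map (e.symm : Ω →+* AlgebraicClosure F) = E.baseChange (AlgebraicClosure F) := by
  rw [← hV, ← bcm, WeierstrassCurve.map_map]
  congr 1
  ext x
  show e.symm (i x) = _
  rw [← he, e.symm_apply_apply]

omit [NumberField F] [CharZero Ω] [IsAlgClosed Ω] [Algebra.IsAlgebraic ℚ Ω] in
lemma comm_sym {i : F →+* Ω} {V : WeierstrassCurve Ω} (hV : E.map i = V)
    (hG : ∀ σ ∈ Gf i, V.map ((σ : Ω ≃+* Ω) : Ω →+* Ω) = V)
    {e : AlgebraicClosure F ≃+* Ω}
    (he : ∀ x, e (algebraMap F (AlgebraicClosure F) x) = i x) (σ : Gal F) (P : Pt V) :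
    mp (e.symm : Ω →+* AlgebraicClosure F) (sym_map hV he)
      (T (Gf i) hG ⟨cjg e σ, cjg_mem he σ⟩ P) =
      mp ((σ : AlgebraicClosure F →ₐ[F] AlgebraicClosure F) :
        AlgebraicClosure F →+* AlgebraicClosure F) (gal_map σ)
        (mp (e.symm : Ω →+* AlgebraicClosure F) (sym_map hV he) P) := by
  unfold T
  rw [mp_comp _ _ (map_comp (hG _ (cjg_mem he σ)) (sym_map hV he)),
    mp_comp _ _ (map_comp (sym_map hV he) (gal_map σ))]
  refine mp_congr (fun x => ?_) _
  obtain ⟨y, rfl⟩ := e.surjective x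
  show e.symm (cjg e σ (e y)) = σ (e.symm (e y))
  rw [cjg_apply, e.symm_apply_apply, e.symm_apply_apply]

/-- no points of order `p` over the base field -/
lemma fixed_tor {p : ℕ} (hp : p.Prime) (i : F →+* Ω) {V : WeierstrassCurve Ω} (hV : E.map i = V)
    (hG : ∀ σ ∈ Gf i, V.map ((σ : Ω ≃+* Ω) : Ω →+* Ω) = V)
    (hcard : ¬ p ∣ Nat.card (Pt E)) (t : Pt V) (ht : p • t = 0)
    (hfix : ∀ σ, T (Gf i) hG σ t = t) : t = 0 := by
  obtain ⟨e, he⟩ := exists_iso i
  obtain ⟨R, hR⟩ := fixed_pt (mp (e.symm : Ω →+* AlgebraicClosure F) (sym_map hV he) t) (fun σ => by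
    conv_rhs => rw [← hfix ⟨cjg e σ, cjg_mem he σ⟩]
    exact (comm_sym hV hG he σ t).symm)
  have h1 : p • R = 0 := by
    apply mp_inj (algebraMap F (AlgebraicClosure F)) (bcm E)
    rw [map_nsmul, hR, ← map_nsmul, ht, map_zero, map_zero]
  have h2 : R = 0 := by
    by_contra hne
    have : Fact p.Prime := ⟨hp⟩
    have h3 := addOrderOf_eq_prime h1 hne
    exact hcard (h3 ▸ addOrderOf_dvd_natCard R)
  rw [h2, map_zero] at hR
  exact mp_inj (e.symm : Ω →+* AlgebraicClosure F) (sym_map hV he) (by rw [← hR, map_zero])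

theorem sel_of_sha {p : ℕ} (hp : p.Prime) (i : F →+* Ω) {V : WeierstrassCurve Ω} (hV : E.map i = V)
    (hG : ∀ σ ∈ Gf i, V.map ((σ : Ω ≃+* Ω) : Ω →+* Ω) = V)
    (hSha : ∀ s : Sha E, p • s = 0 → s = 0) (hfin : Finite (Pt E))
    (hcard : ¬ p ∣ Nat.card (Pt E)) : SelTriv (Gf i) hG ⊤ p := by
  classical
  obtain ⟨e, he⟩ := exists_iso i
  intro f hf hpf hloc
  have hmem := cjg_mem (i := i) he
  let m : Gal F → Gf i := fun σ => ⟨cjg e σ, hmem σ⟩
  let g : Coch E := fun σ => (tr E _).symm (mp (e.symm : Ω →+* AlgebraicClosure F) (sym_map hV he)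
    (f (m σ)))
  have hg : ∀ σ, tr E _ (g σ) = mp (e.symm : Ω →+* AlgebraicClosure F) (sym_map hV he) (f (m σ)) :=
    fun σ => AddEquiv.apply_symm_apply _ _
  have hcm : ∀ σ τ : Gal F, m (σ * τ) = m σ * m τ := by
    intro σ τ
    apply Subtype.ext
    ext x
    obtain ⟨y, rfl⟩ := e.surjective x
    show cjg e (σ * τ) (e y) = cjg e σ (cjg e τ (e y))
    rw [cjg_apply, cjg_apply, cjg_apply]
    rfl
  have hgmul : ∀ σ τ : Gal F, g (σ * τ) = g σ + act E σ.toAlgHom (g τ) := by
    intro σ τ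
    apply (tr E _).injective
    rw [map_add, tr_act, hg, hg, hg, hcm, hf.mul _ trivial _ trivial, map_add,
      comm_sym hV hG he σ]
  have hgc : IsCoc E g := by
    refine ⟨?_, hgmul⟩
    rw [IsLocallyConstant.iff_eventually_eq]
    intro σ
    obtain ⟨S, hS⟩ := hf.cont
    let E' : IntermediateField F (AlgebraicClosure F) :=
      IntermediateField.adjoin F ((S.image e.symm : Finset (AlgebraicClosure F)) : Set _)
    have hE : FiniteDimensional F E' :=
      IntermediateField.finiteDimensional_adjoin fun x _ => Algebra.IsIntegral.isIntegral x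
    have hU : (E'.fixingSubgroup : Set (Gal F)) ∈ nhds (1 : Gal F) :=
      (E'.fixingSubgroup_isOpen).mem_nhds (one_mem _)
    have h1 : Filter.Tendsto (fun τ : Gal F => σ⁻¹ * τ) (nhds σ) (nhds (1 : Gal F)) := by
      have := (continuous_const_mul σ⁻¹).tendsto (X := Gal F) σ
      rwa [inv_mul_cancel] at this
    filter_upwards [h1 hU] with τ hτ
    have h2 : τ = σ * (σ⁻¹ * τ) := by rw [mul_inv_cancel_left]
    have h3 : g (σ⁻¹ * τ) = 0 := by
      apply (tr E _).injective
      rw [hg, map_zero]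
      have h4 : f (m (σ⁻¹ * τ)) = 0 := by
        apply hS _ trivial
        intro x hx
        have h5 : (σ⁻¹ * τ) (e.symm x) = e.symm x := by
          have h6 : σ⁻¹ * τ ∈ E'.fixingSubgroup := hτ
          rw [IntermediateField.mem_fixingSubgroup_iff] at h6
          apply h6
          apply IntermediateField.subset_adjoin
          rw [Finset.mem_coe]
          exact Finset.mem_image_of_mem _ hx
        have h7 := cjg_apply e (σ⁻¹ * τ) (e.symm x)
        rw [e.apply_symm_apply, h5, e.apply_symm_apply] at h7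
        exact h7
      rw [h4, map_zero]
    calc g τ = g (σ * (σ⁻¹ * τ)) := by rw [← h2]
      _ = g σ := by rw [hgmul, h3, map_zero, add_zero]
  have hpg : ∀ σ, p • g σ = 0 := by
    intro σ
    apply (tr E _).injective
    rw [map_nsmul, hg, ← map_nsmul, hpf _ trivial, map_zero, map_zero]
  -- local conditions
  have hLT : ∀ (C : Type) [NormedField C] (ι : AlgebraicClosure F →+* C) (V' : WeierstrassCurve C)
      (hV' : (E.baseChange (AlgebraicClosure F)).map ι = V'),
      LTr (ι.comp (e.symm : Ω →+* AlgebraicClosure F)) ⊤ f →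
      ∃ P : Pt V', ∀ (τ : RingAut C) (h : V'.map ((τ : C ≃+* C) : C →+* C) = V'),
      (∀ x, ‖τ x‖ = ‖x‖) → ∀ σ : Gal F, (∀ x, τ (ι x) = ι (σ x)) →
      mp ι hV' (tr E (AlgebraicClosure F) (g σ)) = mp ((τ : C ≃+* C) : C →+* C) h P - P := by
    intro C _ ι V' hV' hL
    obtain ⟨P, hP⟩ := hL V' (map_comp (sym_map hV he) hV')
    refine ⟨P, fun τ h hi σ hc => ?_⟩
    rw [← hP τ h hi (m σ) trivial (by
      intro x
      obtain ⟨y, rfl⟩ := e.surjective x
      show τ (ι (e.symm (e y))) = ι (e.symm (cjg e σ (e y)))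
      rw [cjg_apply, e.symm_apply_apply, e.symm_apply_apply, hc]), hg]
    exact mp_comp _ _ _ _
  have hgs : IsShaCoc E g := by
    refine ⟨hgc, loc_fin g ?_, loc_infp g ?_⟩
    · intro q _ ι V' hV'
      exact hLT (PadicAlgCl q) ι V' hV' (hloc.fin q _)
    · intro ι V' hV'
      exact hLT ℂ ι V' hV' (hloc.inf _)
  have h0 : p • (QuotientAddGroup.mk (⟨g, hgs⟩ : shaCoc E) :
      (shaCoc E) ⧸ (cob E).addSubgroupOf (shaCoc E)) = 0 := by
    rw [← QuotientAddGroup.mk_nsmul]
    have : p • (⟨g, hgs⟩ : shaCoc E) = 0 := Subtype.ext (funext fun σ => hpg σ)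
    rw [this, QuotientAddGroup.mk_zero]
  have h1 : (QuotientAddGroup.mk (⟨g, hgs⟩ : shaCoc E) :
      (shaCoc E) ⧸ (cob E).addSubgroupOf (shaCoc E)) = 0 := hSha _ h0
  rw [QuotientAddGroup.eq_zero_iff, AddSubgroup.mem_addSubgroupOf] at h1
  obtain ⟨P, hP⟩ := h1
  have hP' : ∀ σ : Gal F, g σ = act E σ.toAlgHom P - P := hP
  set P' := tr E _ P with hP'def
  have hPσ : ∀ σ : Gal F, tr E _ (g σ) = mp ((σ : AlgebraicClosure F →ₐ[F] AlgebraicClosure F) :
      AlgebraicClosure F →+* AlgebraicClosure F) (gal_map σ) P' - P' := by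
    intro σ
    rw [hP' σ, map_sub, tr_act]
  -- the multiple is rational
  obtain ⟨R, hR⟩ := fixed_pt (p • P') (fun σ => by
    rw [map_nsmul, ← sub_eq_zero, ← smul_sub, ← hPσ, ← map_nsmul, hpg, map_zero])
  obtain ⟨R', hR'⟩ : ∃ R' : Pt E, p • R' = R := by
    have hco : (Nat.card (Pt E)).Coprime p := ((Nat.Prime.coprime_iff_not_dvd hp).2 hcard).symm
    exact (nsmulCoprime hco).surjective R
  set t := P' - mp (algebraMap F (AlgebraicClosure F)) (bcm E) R' with htdef
  have hpt : p • t = 0 := by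
    rw [htdef, smul_sub, ← map_nsmul (mp (algebraMap F (AlgebraicClosure F)) (bcm E)), hR', hR,
      sub_self]
  have htσ : ∀ σ : Gal F, tr E _ (g σ) = mp ((σ : AlgebraicClosure F →ₐ[F] AlgebraicClosure F) :
      AlgebraicClosure F →+* AlgebraicClosure F) (gal_map σ) t - t := by
    intro σ
    rw [hPσ, htdef, map_sub, mp_comp _ _ (map_comp (bcm E) (gal_map σ))]
    have : mp (((σ : AlgebraicClosure F →ₐ[F] AlgebraicClosure F) :
      AlgebraicClosure F →+* AlgebraicClosure F).comp (algebraMap F (AlgebraicClosure F)))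
      (map_comp (bcm E) (gal_map σ)) R' =
      mp (algebraMap F (AlgebraicClosure F)) (bcm E) R' := mp_congr (fun x => σ.commutes x) _
    rw [this]
    abel
  have heV : (E.baseChange (AlgebraicClosure F)).map (e : AlgebraicClosure F →+* Ω) = V := by
    rw [← hV, ← bcm, WeierstrassCurve.map_map]
    congr 1
    ext x
    exact he x
  refine ⟨mp (e : AlgebraicClosure F →+* Ω) heV t, by rw [← map_nsmul, hpt, map_zero], ?_⟩
  intro σ _
  -- `σ` comes from an element of the Galois group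
  let σ' : Gal F := AlgEquiv.ofRingEquiv (f := (e.trans (σ : RingAut Ω)).trans e.symm) (fun x => by
    show e.symm ((σ : RingAut Ω) (e (algebraMap F _ x))) = _
    rw [he, σ.2 x, ← he, e.symm_apply_apply])
  have hσ' : m σ' = σ := by
    apply Subtype.ext
    ext x
    obtain ⟨y, rfl⟩ := e.surjective x
    show cjg e σ' (e y) = _
    rw [cjg_apply]
    show e (e.symm ((σ : RingAut Ω) (e y))) = _
    rw [e.apply_symm_apply]
  have h2 := htσ σ'
  rw [hg, hσ'] at h2
  have h3 := congrArg (mp (e : AlgebraicClosure F →+* Ω) heV) h2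
  have hid : V.map ((e : AlgebraicClosure F →+* Ω).comp (e.symm : Ω →+* AlgebraicClosure F)) = V :=
    map_comp (sym_map hV he) heV
  rw [mp_comp _ _ hid, map_sub] at h3
  have e1 : mp ((e : AlgebraicClosure F →+* Ω).comp (e.symm : Ω →+* AlgebraicClosure F)) hid (f σ) =
      f σ := mp_one hid (fun x => e.apply_symm_apply x) _
  rw [e1] at h3
  rw [h3]
  congr 1
  unfold T
  rw [mp_comp _ _ (map_comp (gal_map σ') heV), mp_comp _ _ (map_comp heV (hG σ σ.2))]
  refine mp_congr (fun x => ?_) _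
  show e (σ' x) = (σ : RingAut Ω) (e x)
  show e (e.symm ((σ : RingAut Ω) (e x))) = _
  rw [e.apply_symm_apply]

end Pool.Agent.P8H4.PK
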